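import Pool.Agent.U26Z.NL.Main
import Pool.Agent.Erdos456.Mertens

set_option autoImplicit false

/-!
# The random completely multiplicative function: probability estimates
-/

namespace Pool.Agent.U26Z.NL

open Finset MeasureTheory ProbabilityTheory Filter Topology

/-- the Liouville function with noise -/
def noisy {Ω : Type*} (ξ : ℕ → Ω → ℤ) (ω : Ω) (n : ℕ) : ℤ := cm (fun p => -ξ p ω) n

/-- the set of the primes in `F` with a changed sign -/
noncomputable def TF {Ω : Type*} (ξ : ℕ → Ω → ℤ) (F : Finset ℕ) (ω : Ω) : Finset ℕ :=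
  F.filter (fun p => ξ p ω = -1)

theorem noisy_eq {Ω : Type*} {ξ : ℕ → Ω → ℤ} (hξ : ∀ p ω, ξ p ω = 1 ∨ ξ p ω = -1) {F : Finset ℕ}
    {ω : Ω} {n : ℕ} (hn : ∀ p, p.Prime → p ∣ n → p ∈ F) : noisy ξ ω n = lamT (TF ξ F ω) n := by
  unfold noisy lamT
  apply cm_congr
  intro p hp hpn
  have h1 : p ∈ TF ξ F ω ↔ ξ p ω = -1 := by
    unfold TF
    rw [mem_filter]
    exact ⟨fun h => h.2, fun h => ⟨hn p hp hpn, h⟩⟩
  by_cases h2 : ξ p ω = -1
  · rw [if_pos (h1.2 h2), h2]; norm_num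
  · rw [if_neg (fun h => h2 (h1.1 h)), (hξ p ω).resolve_right h2]

theorem corr_noisy {Ω : Type*} {ξ : ℕ → Ω → ℤ} (hξ : ∀ p ω, ξ p ω = 1 ∨ ξ p ω = -1) {k : ℕ}
    {a b : Fin k → ℕ} (ha : ∀ i, 1 ≤ a i) {A : ℕ} (hA : ∀ i, a i + b i ≤ A) (x : ℕ) (ω : Ω) :
    corr (noisy ξ ω) a b x = corr (lamT (TF ξ ((Icc 1 (A * x)).filter Nat.Prime) ω)) a b x := by
  unfold corr
  refine Finset.sum_congr rfl fun n hn => Finset.prod_congr rfl fun i _ => ?_
  rw [mem_Icc] at hn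
  apply noisy_eq hξ
  intro p hp hpn
  rw [mem_filter, mem_Icc]
  refine ⟨⟨hp.one_lt.le, ?_⟩, hp⟩
  have h1 := Nat.le_of_dvd (Nat.pos_of_ne_zero (L_ne ha hn.1 i)) hpn
  have h2 : a i * n + b i ≤ (a i + b i) * x := by
    have h3 : a i * n ≤ a i * x := Nat.mul_le_mul_left _ hn.2
    have h4 : b i ≤ b i * x := Nat.le_mul_of_pos_right _ (by omega)
    rw [add_mul]
    omega
  have h3 : (a i + b i) * x ≤ A * x := Nat.mul_le_mul_right _ (hA i)
  omega

section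
variable {Ω : Type*} [MeasurableSpace Ω] {μ : Measure Ω} [IsProbabilityMeasure μ] {ξ : ℕ → Ω → ℤ}
  {δ : ℕ → ℝ}

theorem law (hind : iIndepFun ξ μ) (hm : ∀ p, Measurable (ξ p)) (h0 : ∀ p, 0 ≤ δ p) (h1 : ∀ p, δ p ≤ 1 / 2)
    (hμ : ∀ p, μ {ω | ξ p ω = -1} = ENNReal.ofReal (δ p)) (F T : Finset ℕ) (hT : T ⊆ F) :
    μ {ω | TF ξ F ω = T} = ENNReal.ofReal (∏ p ∈ F, if p ∈ T then δ p else 1 - δ p) := by
  have h2 : {ω | TF ξ F ω = T} = ⋂ p ∈ F, ξ p ⁻¹' (if p ∈ T then {-1} else {-1}ᶜ) := by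
    ext ω
    simp only [Set.mem_setOf_eq, Set.mem_iInter, Set.mem_preimage]
    constructor
    · intro h p hp
      by_cases hpT : p ∈ T
      · rw [if_pos hpT]
        rw [← h] at hpT
        unfold TF at hpT
        exact (mem_filter.1 hpT).2
      · rw [if_neg hpT]
        intro h3
        apply hpT
        rw [← h]
        unfold TF
        exact mem_filter.2 ⟨hp, h3⟩
    · intro h
      unfold TF
      ext p
      rw [mem_filter]
      constructor
      · rintro ⟨hp, h3⟩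
        by_contra hpT
        have := h p hp
        rw [if_neg hpT] at this
        exact this h3
      · intro hpT
        have := h p (hT hpT)
        rw [if_pos hpT] at this
        exact ⟨hT hpT, this⟩
  rw [h2, hind.measure_inter_preimage_eq_mul F (fun p _ => MeasurableSet.of_discrete),
    ENNReal.ofReal_prod_of_nonneg]
  · refine Finset.prod_congr rfl fun p _ => ?_
    have h3 : ξ p ⁻¹' {-1} = {ω | ξ p ω = -1} := rfl
    split_ifs with hpT
    · rw [h3, hμ]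
    · rw [Set.preimage_compl, prob_compl_eq_one_sub (hm p (MeasurableSet.singleton _)), h3, hμ,
        ENNReal.ofReal_sub _ (h0 p), ENNReal.ofReal_one]
  · intro p _
    split_ifs
    · exact h0 p
    · linarith [h1 p]

theorem prob_le (hind : iIndepFun ξ μ) (hm : ∀ p, Measurable (ξ p)) (h0 : ∀ p, 0 ≤ δ p)
    (h1 : ∀ p, δ p ≤ 1 / 2) (hμ : ∀ p, μ {ω | ξ p ω = -1} = ENNReal.ofReal (δ p)) (F : Finset ℕ)
    (Φ : Finset ℕ → Prop) [DecidablePred Φ] :
    μ {ω | Φ (TF ξ F ω)} ≤ ENNReal.ofReal (EE δ F (fun T => if Φ T then 1 else 0)) := by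
  have h2 : {ω | Φ (TF ξ F ω)} ⊆ ⋃ T ∈ F.powerset.filter Φ, {ω | TF ξ F ω = T} := by
    intro ω hω
    simp only [Set.mem_iUnion, Set.mem_setOf_eq, exists_prop, mem_filter, mem_powerset]
    exact ⟨TF ξ F ω, ⟨Finset.filter_subset _ _, hω⟩, rfl⟩
  refine (measure_mono h2).trans ((measure_biUnion_finset_le _ _).trans ?_)
  have h3 : ∀ T ∈ F.powerset.filter Φ, μ {ω | TF ξ F ω = T} =
      ENNReal.ofReal (∏ p ∈ F, if p ∈ T then δ p else 1 - δ p) := by
    intro T hT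
    rw [mem_filter, mem_powerset] at hT
    exact law hind hm h0 h1 hμ F T hT.1
  rw [Finset.sum_congr rfl h3, ← ENNReal.ofReal_sum_of_nonneg]
  · apply ENNReal.ofReal_le_ofReal
    unfold EE
    rw [Finset.sum_filter]
    refine Finset.sum_le_sum fun T _ => ?_
    by_cases hT : Φ T
    · simp [hT]
    · simp [hT]
  · intro T _
    refine Finset.prod_nonneg fun p _ => ?_
    split_ifs
    · exact h0 p
    · linarith [h1 p]

end

/-! ### The sum over the primes up to the cube root -/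

noncomputable def zz (x : ℕ) : ℕ := ⌊(x : ℝ) ^ ((1 : ℝ) / 3)⌋₊

theorem zz_pow (x : ℕ) : zz x ^ 3 ≤ x := by
  have h1 : (zz x : ℝ) ≤ (x : ℝ) ^ ((1 : ℝ) / 3) := Nat.floor_le (Real.rpow_nonneg (Nat.cast_nonneg x) _)
  have h2 : ((zz x : ℝ)) ^ 3 ≤ ((x : ℝ) ^ ((1 : ℝ) / 3)) ^ 3 :=
    pow_le_pow_left₀ (Nat.cast_nonneg _) h1 3
  rw [← Real.rpow_natCast, ← Real.rpow_natCast, ← Real.rpow_mul (Nat.cast_nonneg x)] at h2
  norm_num at h2
  exact_mod_cast h2

theorem cast_tend : Tendsto (fun x : ℕ => (x : ℝ)) atTop atTop := tendsto_natCast_atTop_atTop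

theorem tail_primes : ∃ C : ℝ, ∀ᶠ x : ℕ in atTop, 1 ≤ zz x ∧
    ∑ p ∈ (Icc 1 x).filter (fun p => p.Prime ∧ zz x < p), (1 : ℝ) / p ≤ C := by
  obtain ⟨C, hC⟩ := Pool.Agent.Erdos456.Mert.mertens_inv
  refine ⟨2 * C + Real.log 4, ?_⟩
  have e1 : ∀ᶠ x : ℕ in atTop, (4096 : ℝ) ≤ (x : ℝ) := cast_tend.eventually_ge_atTop 4096
  filter_upwards [e1] with x hx
  have hx0 : (0 : ℝ) < x := by linarith
  have h1 : (16 : ℝ) ≤ (x : ℝ) ^ ((1 : ℝ) / 3) := by
    have h2 : ((16 : ℝ) ^ 3) ^ ((1 : ℝ) / 3) ≤ (x : ℝ) ^ ((1 : ℝ) / 3) :=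
      Real.rpow_le_rpow (by norm_num) (le_trans (by norm_num) hx) (by norm_num)
    rw [← Real.rpow_natCast, ← Real.rpow_mul (by norm_num)] at h2
    norm_num at h2
    norm_num
    exact h2
  have h2 : (x : ℝ) ^ ((1 : ℝ) / 3) < zz x + 1 := Nat.lt_floor_add_one _
  have h3 : (15 : ℝ) < zz x := by linarith
  have h3' : 15 < zz x := by exact_mod_cast h3
  have h4 : (x : ℝ) ^ ((1 : ℝ) / 4) ≤ zz x := by
    have h5 : (x : ℝ) ^ ((1 : ℝ) / 3) = (x : ℝ) ^ ((1 : ℝ) / 4) * (x : ℝ) ^ ((1 : ℝ) / 12) := by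
      rw [← Real.rpow_add hx0]; norm_num
    have h6 : (2 : ℝ) ≤ (x : ℝ) ^ ((1 : ℝ) / 12) := by
      have h7 : ((2 : ℝ) ^ 12) ^ ((1 : ℝ) / 12) ≤ (x : ℝ) ^ ((1 : ℝ) / 12) :=
        Real.rpow_le_rpow (by norm_num) (le_trans (by norm_num) hx) (by norm_num)
      rw [← Real.rpow_natCast, ← Real.rpow_mul (by norm_num)] at h7
      norm_num at h7
      norm_num
      exact h7
    have h7 : 0 < (x : ℝ) ^ ((1 : ℝ) / 4) := Real.rpow_pos_of_pos hx0 _
    nlinarith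
  have hlx : 0 < Real.log x := Real.log_pos (by linarith)
  have h5 : 1 / 4 * Real.log x ≤ Real.log (zz x) := by
    rw [← Real.log_rpow hx0]
    exact Real.log_le_log (Real.rpow_pos_of_pos hx0 _) h4
  refine ⟨by omega, ?_⟩
  have hzx : zz x ≤ x := by
    have := zz_pow x
    have : zz x ≤ zz x ^ 3 := Nat.le_self_pow (by norm_num) _
    omega
  have hx3 : 3 ≤ x := by omega
  have h6 := abs_le.1 (hC x hx3)
  have h7 := abs_le.1 (hC (zz x) (by omega))
  have h8 : ∑ p ∈ (Icc 1 x).filter Nat.Prime, (1 : ℝ) / p =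
      ∑ p ∈ (Icc 1 (zz x)).filter Nat.Prime, (1 : ℝ) / p +
      ∑ p ∈ (Icc 1 x).filter (fun p => p.Prime ∧ zz x < p), (1 : ℝ) / p := by
    rw [← Finset.sum_union]
    · congr 1
      ext p
      simp only [mem_filter, mem_union, mem_Icc]
      constructor
      · rintro ⟨⟨h8, h9⟩, h10⟩
        rcases le_or_gt p (zz x) with h11 | h11
        · exact Or.inl ⟨⟨h8, h11⟩, h10⟩
        · exact Or.inr ⟨⟨h8, h9⟩, h10, h11⟩
      · rintro (⟨⟨h8, h9⟩, h10⟩ | ⟨⟨h8, h9⟩, h10, h11⟩)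
        · exact ⟨⟨h8, by omega⟩, h10⟩
        · exact ⟨⟨h8, h9⟩, h10⟩
    · rw [Finset.disjoint_left]
      intro p hp hp'
      rw [mem_filter, mem_Icc] at hp hp'
      omega
  have h9 : Real.log (Real.log x) - Real.log (Real.log (zz x)) ≤ Real.log 4 := by
    have h10 : Real.log (1 / 4 * Real.log x) ≤ Real.log (Real.log (zz x)) :=
      Real.log_le_log (by positivity) h5
    rw [Real.log_mul (by norm_num) hlx.ne', Real.log_div (by norm_num) (by norm_num), Real.log_one] at h10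
    linarith
  linarith [h6.2, h7.1]

theorem M_tend (δ : ℕ → ℝ) (h0 : ∀ p, 0 ≤ δ p) (h1 : ∀ p, δ p ≤ 1 / 2) (Y : ℕ → ℕ)
    (hY : Tendsto (fun x : ℕ => ∑ p ∈ (Icc 1 x).filter (fun p => p.Prime ∧ Y x < p), δ p / p)
      atTop atTop) :
    Tendsto (fun x : ℕ => ∑ p ∈ (Icc 1 (zz x)).filter (fun p => p.Prime ∧ Y x < p), δ p / p)
      atTop atTop := by
  obtain ⟨C, hC⟩ := tail_primes
  have h2 := tendsto_atTop_add_const_right atTop (-C) hY
  refine tendsto_atTop_mono' atTop ?_ h2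
  filter_upwards [hC] with x hx
  have h3 : ∑ p ∈ (Icc 1 x).filter (fun p => p.Prime ∧ Y x < p), δ p / p ≤
      ∑ p ∈ (Icc 1 (zz x)).filter (fun p => p.Prime ∧ Y x < p), δ p / p +
      ∑ p ∈ (Icc 1 x).filter (fun p => p.Prime ∧ zz x < p), (1 : ℝ) / p := by
    have h4 : (Icc 1 x).filter (fun p => p.Prime ∧ Y x < p) ⊆
        (Icc 1 (zz x)).filter (fun p => p.Prime ∧ Y x < p) ∪
        (Icc 1 x).filter (fun p => p.Prime ∧ zz x < p) := by
      intro p hp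
      simp only [mem_filter, mem_union, mem_Icc] at hp ⊢
      rcases le_or_gt p (zz x) with h5 | h5
      · exact Or.inl ⟨⟨hp.1.1, h5⟩, hp.2⟩
      · exact Or.inr ⟨hp.1, hp.2.1, h5⟩
    have h5 := Finset.sum_le_sum_of_subset_of_nonneg h4 (f := fun p : ℕ => δ p / p)
      (fun p _ _ => div_nonneg (h0 p) (Nat.cast_nonneg p))
    have hdis : Disjoint ((Icc 1 (zz x)).filter (fun p => p.Prime ∧ Y x < p))
        ((Icc 1 x).filter (fun p => p.Prime ∧ zz x < p)) := by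
      rw [Finset.disjoint_left]
      intro p hp hp'
      rw [mem_filter, mem_Icc] at hp hp'
      omega
    rw [Finset.sum_union hdis] at h5
    refine h5.trans (add_le_add le_rfl ?_)
    refine Finset.sum_le_sum fun p _ => ?_
    apply div_le_div_of_nonneg_right _ (Nat.cast_nonneg p)
    linarith [h1 p]
  linarith [hx.2]

end Pool.Agent.U26Z.NL
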