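import Pool.Agent.U26Z.NL.Prob

set_option autoImplicit false

/-!
# Almost sure convergence, convergence in probability
-/

namespace Pool.Agent.U26Z.NL

open Finset MeasureTheory ProbabilityTheory Filter Topology

section
variable {Ω : Type*} [MeasurableSpace Ω] {μ : Measure Ω} [IsProbabilityMeasure μ] {ξ : ℕ → Ω → ℤ}
  {δ : ℕ → ℝ} {k : ℕ} {a b : Fin k → ℕ}

/-- a bound for all the coefficients -/
theorem exists_bound (a b : Fin k → ℕ) : ∃ y₀ : ℕ, 1 ≤ y₀ ∧ (∀ i j, a i ≤ y₀ ∧ a i * b j ≤ y₀) ∧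
    ∀ i, a i + b i ≤ y₀ := by
  refine ⟨1 + ∑ i, (a i + b i) + ∑ i, ∑ j, a i * b j, by omega, fun i j => ?_, fun i => ?_⟩
  · have h1 : a i + b i ≤ ∑ i, (a i + b i) :=
      Finset.single_le_sum (f := fun i => a i + b i) (fun _ _ => Nat.zero_le _) (Finset.mem_univ i)
    have h2 : ∑ j, a i * b j ≤ ∑ i, ∑ j, a i * b j :=
      Finset.single_le_sum (f := fun i => ∑ j, a i * b j) (fun _ _ => Nat.zero_le _) (Finset.mem_univ i)
    have h3 : a i * b j ≤ ∑ j, a i * b j :=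
      Finset.single_le_sum (f := fun j => a i * b j) (fun _ _ => Nat.zero_le _) (Finset.mem_univ j)
    constructor <;> omega
  · have h1 : a i + b i ≤ ∑ i, (a i + b i) :=
      Finset.single_le_sum (f := fun i => a i + b i) (fun _ _ => Nat.zero_le _) (Finset.mem_univ i)
    omega

theorem prob_main (hind : iIndepFun ξ μ) (hm : ∀ p, Measurable (ξ p))
    (hξ : ∀ p ω, ξ p ω = 1 ∨ ξ p ω = -1) (h0 : ∀ p, 0 ≤ δ p) (h1 : ∀ p, δ p ≤ 1 / 2)
    (hμ : ∀ p, μ {ω | ξ p ω = -1} = ENNReal.ofReal (δ p)) (hk : 0 < k)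
    (ha : ∀ i, 1 ≤ a i) (hab : ∀ i j, i ≠ j → a i * b j ≠ a j * b i) {x y z A : ℕ}
    (hy1 : 1 ≤ y) (hy : ∀ i j, a i ≤ y ∧ a i * b j ≤ y) (hyx : y ≤ x) (hz : 1 ≤ z) (hzx : z ^ 3 ≤ x)
    {M : ℝ} (hM : M = ∑ p ∈ (Icc 1 z).filter (fun p => p.Prime ∧ y < p), δ p / p) (hM1 : 1 ≤ M)
    (hA : 1 ≤ A) (hA2 : ∀ i, a i + b i ≤ A) {ε : ℝ} (hε : 0 < ε) (hsm : 1 / y + 22 / M ≤ ε / 2) :
    μ {ω | ε * x ≤ |((corr (noisy ξ ω) a b x : ℤ) : ℝ)|} ≤
      ENNReal.ofReal (2 * Real.exp (-(ε ^ 2 / (64 * k ^ 2 * (1 + A)) * y))) := by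
  classical
  have h2 := prob_le hind hm h0 h1 hμ ((Icc 1 (A * x)).filter Nat.Prime)
    (fun T => ε * x ≤ |((corr (lamT T) a b x : ℤ) : ℝ)|)
  have h3 : {ω | ε * x ≤ |((corr (noisy ξ ω) a b x : ℤ) : ℝ)|} =
      {ω | ε * x ≤ |((corr (lamT (TF ξ ((Icc 1 (A * x)).filter Nat.Prime) ω)) a b x : ℤ) : ℝ)|} := by
    ext ω
    rw [Set.mem_setOf_eq, Set.mem_setOf_eq, corr_noisy hξ ha hA2]
  rw [h3]
  refine h2.trans (ENNReal.ofReal_le_ofReal ?_)
  have h4 := cube δ h0 h1 hk ha hab hy1 hy hyx hz hzx hM hM1 hA hε hsm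
  convert h4 using 3

/-- the points of the scale -/
noncomputable def xs (θ : ℝ) (j : ℕ) : ℕ := ⌈θ ^ j⌉₊

theorem xs_ge (θ : ℝ) (j : ℕ) : θ ^ j ≤ xs θ j := Nat.le_ceil _

theorem xs_tend {θ : ℝ} (hθ : 1 < θ) : Tendsto (xs θ) atTop atTop := by
  have h1 : Tendsto (fun j : ℕ => θ ^ j) atTop atTop := tendsto_pow_atTop_atTop_of_one_lt hθ
  exact tendsto_natCast_atTop_iff.1 (tendsto_atTop_mono (xs_ge θ) h1)

/-- interpolation between the points of the scale -/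
theorem interp {S : ℕ → ℝ} (hS0 : ∀ x y : ℕ, x ≤ y → |S y - S x| ≤ (y : ℝ) - x) {θ ε : ℝ} (hθ : 1 < θ)
    (hε : 0 < ε) (h : ∀ᶠ j : ℕ in atTop, |S (xs θ j)| ≤ ε * xs θ j) :
    ∀ᶠ x : ℕ in atTop, |S x| ≤ (2 * ε + (θ - 1)) * x := by
  obtain ⟨J, hJ⟩ := eventually_atTop.1 h
  have e1 : ∀ᶠ x : ℕ in atTop, 1 / ε ≤ (x : ℝ) := cast_tend.eventually_ge_atTop _
  filter_upwards [eventually_ge_atTop (xs θ J), eventually_ge_atTop 1, e1] with x hx hx1 hx2
  -- the largest `j` with `xs θ j ≤ x`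
  have h1 : ∃ j, x < xs θ j := ((xs_tend hθ).eventually_gt_atTop x).exists
  classical
  obtain ⟨m, hm⟩ : ∃ m, m = Nat.find h1 := ⟨_, rfl⟩
  have hm1 : x < xs θ m := by rw [hm]; exact Nat.find_spec h1
  have hmono : Monotone (xs θ) := fun i j hij =>
    Nat.ceil_mono (pow_le_pow_right₀ hθ.le hij)
  have hmJ : J < m := by
    by_contra hcon
    have := hmono (not_lt.1 hcon)
    omega
  obtain ⟨j, rfl⟩ : ∃ j, m = j + 1 := ⟨m - 1, by omega⟩
  have hj : xs θ j ≤ x := by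
    have := Nat.find_min h1 (m := j) (by omega)
    omega
  have h2 := hJ j (by omega)
  have h3 := hS0 (xs θ j) x hj
  have h4 : (x : ℝ) - xs θ j ≤ (θ - 1) * x + 1 := by
    have h5 : (x : ℝ) < θ ^ (j + 1) := by
      by_contra hcon
      have := Nat.ceil_le.2 (not_lt.1 hcon)
      have h6 : xs θ (j + 1) ≤ x := this
      omega
    have h6 := xs_ge θ j
    have h7 : (x : ℝ) ≤ θ * xs θ j := by
      rw [pow_succ] at h5
      nlinarith
    have h8 : (xs θ j : ℝ) ≤ x := by exact_mod_cast hj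
    nlinarith
  have h5 : (1 : ℝ) ≤ ε * x := by
    rw [div_le_iff₀ hε] at hx2
    linarith
  have h6 : (xs θ j : ℝ) ≤ x := by exact_mod_cast hj
  have h7 : |S x| ≤ |S (xs θ j)| + |S x - S (xs θ j)| := by
    have := abs_add_le (S (xs θ j)) (S x - S (xs θ j))
    simpa using this
  have h8 : ε * (xs θ j : ℝ) ≤ ε * x := mul_le_mul_of_nonneg_left h6 hε.le
  have h9 : (2 * ε + (θ - 1)) * (x : ℝ) = ε * x + ε * x + (θ - 1) * x := by ring
  rw [h9]
  linarith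

theorem corr_diff (f : ℕ → ℤ) (hf : ∀ n, |f n| ≤ 1) (a b : Fin k → ℕ) (x y : ℕ) (hxy : x ≤ y) :
    |((corr f a b y : ℤ) : ℝ) - ((corr f a b x : ℤ) : ℝ)| ≤ (y : ℝ) - x := by
  have h1 : corr f a b y - corr f a b x = ∑ n ∈ Ioc x y, ∏ i, f (a i * n + b i) := by
    unfold corr
    have h2 : Icc 1 y = Icc 1 x ∪ Ioc x y := by
      ext n
      simp only [mem_Icc, mem_union, mem_Ioc]
      omega
    have h3 : Disjoint (Icc 1 x) (Ioc x y) := by
      rw [Finset.disjoint_left]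
      intro n hn hn'
      rw [mem_Icc] at hn
      rw [mem_Ioc] at hn'
      omega
    rw [h2, Finset.sum_union h3]
    ring
  have h2 : |corr f a b y - corr f a b x| ≤ ((y - x : ℕ) : ℤ) := by
    rw [h1]
    refine (Finset.abs_sum_le_sum_abs _ _).trans ?_
    have h3 : ∀ n ∈ Ioc x y, |∏ i, f (a i * n + b i)| ≤ 1 := by
      intro n _
      rw [Finset.abs_prod]
      exact Finset.prod_le_one (fun i _ => abs_nonneg _) (fun i _ => hf _)
    refine (Finset.sum_le_sum h3).trans ?_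
    simp
  have h3 : ((|corr f a b y - corr f a b x| : ℤ) : ℝ) ≤ (((y - x : ℕ) : ℤ) : ℝ) := by exact_mod_cast h2
  rw [Int.cast_abs, Int.cast_sub, Int.cast_natCast, Nat.cast_sub hxy] at h3
  exact h3

theorem noisy_abs (hξ : ∀ p ω, ξ p ω = 1 ∨ ξ p ω = -1) (ω : Ω) (n : ℕ) : |noisy ξ ω n| ≤ 1 := by
  unfold noisy
  refine (cm_abs (fun p => ?_) n).le
  rcases hξ p ω with h | h <;> rw [h] <;> norm_num

/-- almost sure smallness at one precision -/
theorem as_eps (hind : iIndepFun ξ μ) (hm : ∀ p, Measurable (ξ p))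
    (hξ : ∀ p ω, ξ p ω = 1 ∨ ξ p ω = -1) (h0 : ∀ p, 0 ≤ δ p) (h1 : ∀ p, δ p ≤ 1 / 2)
    (hμ : ∀ p, μ {ω | ξ p ω = -1} = ENNReal.ofReal (δ p)) (hk : 0 < k)
    (ha : ∀ i, 1 ≤ a i) (hab : ∀ i j, i ≠ j → a i * b j ≠ a j * b i) {Y : ℕ → ℕ}
    (hY1 : Tendsto (fun x : ℕ => (Y x : ℝ) / Real.log (Real.log x)) atTop atTop)
    (hY2 : Tendsto (fun x : ℕ => ∑ p ∈ (Icc 1 x).filter (fun p => p.Prime ∧ Y x < p), δ p / p)
      atTop atTop) {ε : ℝ} (hε : 0 < ε) :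
    ∀ᵐ ω ∂μ, ∀ᶠ x : ℕ in atTop, |((corr (noisy ξ ω) a b x : ℤ) : ℝ)| ≤ 3 * ε * x := by
  obtain ⟨A, hA1, hA2, hA3⟩ := exists_bound a b
  obtain ⟨c, hc⟩ : ∃ c : ℝ, c = ε ^ 2 / (64 * k ^ 2 * (1 + A)) := ⟨_, rfl⟩
  have hk0 : (0 : ℝ) < k := by exact_mod_cast hk
  have hA0 : (1 : ℝ) ≤ A := by exact_mod_cast hA1
  have hc0 : 0 < c := by rw [hc]; positivity
  obtain ⟨θ, hθ, hθε⟩ : ∃ θ : ℝ, 1 < θ ∧ θ - 1 ≤ ε := ⟨1 + ε, by linarith, by linarith⟩
  have hMt := M_tend δ h0 h1 Y hY2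
  obtain ⟨C₁, hC₁⟩ := tail_primes
  have hll : Tendsto (fun x : ℕ => Real.log (Real.log x)) atTop atTop :=
    Real.tendsto_log_atTop.comp (Real.tendsto_log_atTop.comp cast_tend)
  have hYt : Tendsto (fun x : ℕ => (Y x : ℝ)) atTop atTop := by
    have h2 := hY1.atTop_mul_atTop₀ hll
    refine h2.congr' ?_
    filter_upwards [hll.eventually_gt_atTop 0] with x hx
    field_simp
  have hev : ∀ᶠ x : ℕ in atTop, μ {ω | ε * x ≤ |((corr (noisy ξ ω) a b x : ℤ) : ℝ)|} ≤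
      ENNReal.ofReal (2 * (Real.log x ^ 2)⁻¹) := by
    filter_upwards [hMt.eventually_ge_atTop 1, hMt.eventually_ge_atTop (88 / ε),
      hYt.eventually_ge_atTop (A : ℝ), hYt.eventually_ge_atTop (4 / ε), hC₁,
      hY1.eventually_ge_atTop (2 / c), hll.eventually_gt_atTop 0] with x e1 e2 e3 e4 e5 e6 e7
    obtain ⟨M, hM⟩ : ∃ M, M = ∑ p ∈ (Icc 1 (zz x)).filter (fun p => p.Prime ∧ Y x < p), δ p / p :=
      ⟨_, rfl⟩
    rw [← hM] at e1 e2
    have hAY : A ≤ Y x := by exact_mod_cast e3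
    have hYx : Y x ≤ x := by
      by_contra hcon
      have h2 : (Icc 1 (zz x)).filter (fun p => p.Prime ∧ Y x < p) = ∅ := by
        rw [Finset.filter_eq_empty_iff]
        intro p hp
        rw [mem_Icc] at hp
        have h3 : zz x ≤ zz x ^ 3 := Nat.le_self_pow (by norm_num) _
        have h4 := zz_pow x
        rintro ⟨-, h5⟩
        omega
      rw [h2, Finset.sum_empty] at hM
      linarith
    have hY0 : (0 : ℝ) < Y x := by linarith
    refine (prob_main hind hm hξ h0 h1 hμ hk ha hab (hA1.trans hAY)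
      (fun i j => ⟨(hA2 i j).1.trans hAY, (hA2 i j).2.trans hAY⟩) hYx e5.1 (zz_pow x) hM e1
      hA1 hA3 hε ?_).trans ?_
    · have h2 : 1 / (Y x : ℝ) ≤ ε / 4 := by
        rw [div_le_iff₀ hY0]
        rw [div_le_iff₀ hε] at e4
        linarith
      have h3 : 22 / M ≤ ε / 4 := by
        rw [div_le_iff₀ (by linarith)]
        rw [div_le_iff₀ hε] at e2
        linarith
      linarith
    · apply ENNReal.ofReal_le_ofReal
      rw [← hc]
      apply mul_le_mul_of_nonneg_left _ (by norm_num)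
      have hl0 : 0 < Real.log x := by
        by_contra hcon
        rcases (not_lt.1 hcon).eq_or_lt with h2 | h2
        · rw [h2, Real.log_zero] at e7
          exact lt_irrefl _ e7
        · have : Real.log (x : ℝ) < 0 := h2
          have h3 : 0 ≤ Real.log (x : ℝ) := Real.log_natCast_nonneg x
          linarith
      have h2 : (Real.log x ^ 2)⁻¹ = Real.exp (-(2 * Real.log (Real.log x))) := by
        rw [Real.exp_neg, two_mul, Real.exp_add, Real.exp_log hl0, sq]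
      rw [h2]
      apply Real.exp_le_exp.2
      have h3 : 2 / c * Real.log (Real.log x) ≤ Y x := by
        rw [le_div_iff₀ e7] at e6
        exact e6
      have h4 := mul_le_mul_of_nonneg_left h3 hc0.le
      have h5 : c * (2 / c * Real.log (Real.log x)) = 2 * Real.log (Real.log x) := by field_simp
      linarith
  obtain ⟨J, hJ⟩ := eventually_atTop.1 ((xs_tend hθ).eventually hev)
  have hlθ : 0 < Real.log θ := Real.log_pos hθ
  have hsum : Summable (fun i : ℕ => 2 / Real.log θ ^ 2 * (1 / ((i : ℝ) + 1) ^ 2)) := by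
    apply Summable.mul_left
    have h2 := (summable_nat_add_iff 1).2 (Real.summable_one_div_nat_pow.2 (by norm_num : 1 < 2))
    simpa using h2
  have hBC : ∑' i, μ {ω | ε * (xs θ (i + (J + 1)) : ℕ) ≤
      |((corr (noisy ξ ω) a b (xs θ (i + (J + 1))) : ℤ) : ℝ)|} ≠ ⊤ := by
    refine ne_top_of_le_ne_top hsum.tsum_ofReal_ne_top (ENNReal.tsum_le_tsum fun i => ?_)
    refine (hJ (i + (J + 1)) (by omega)).trans (ENNReal.ofReal_le_ofReal ?_)
    have h2 : ((i : ℝ) + 1) * Real.log θ ≤ Real.log (xs θ (i + (J + 1)) : ℕ) := by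
      have h3 : Real.log (θ ^ (i + (J + 1))) ≤ Real.log (xs θ (i + (J + 1)) : ℕ) :=
        Real.log_le_log (by positivity) (xs_ge θ _)
      rw [Real.log_pow] at h3
      refine le_trans ?_ h3
      apply mul_le_mul_of_nonneg_right _ hlθ.le
      push_cast
      have : (0 : ℝ) ≤ J := Nat.cast_nonneg J
      linarith
    have h3 : (((i : ℝ) + 1) * Real.log θ) ^ 2 ≤ Real.log (xs θ (i + (J + 1)) : ℕ) ^ 2 :=
      pow_le_pow_left₀ (by positivity) h2 2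
    have h4 : (Real.log (xs θ (i + (J + 1)) : ℕ) ^ 2)⁻¹ ≤ ((((i : ℝ) + 1) * Real.log θ) ^ 2)⁻¹ :=
      inv_anti₀ (by positivity) h3
    refine (mul_le_mul_of_nonneg_left h4 (by norm_num)).trans (le_of_eq ?_)
    field_simp
  filter_upwards [ae_eventually_notMem hBC] with ω hω
  have h2 : ∀ᶠ j : ℕ in atTop, |((corr (noisy ξ ω) a b (xs θ j) : ℤ) : ℝ)| ≤ ε * (xs θ j : ℕ) := by
    obtain ⟨I, hI⟩ := eventually_atTop.1 hω
    refine eventually_atTop.2 ⟨I + (J + 1), fun j hj => ?_⟩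
    have h3 := hI (j - (J + 1)) (by omega)
    have h4 : j - (J + 1) + (J + 1) = j := by omega
    rw [h4, not_le] at h3
    exact h3.le
  have h3 := interp (S := fun x => ((corr (noisy ξ ω) a b x : ℤ) : ℝ))
    (fun x y hxy => corr_diff _ (noisy_abs hξ ω) a b x y hxy) hθ hε h2
  filter_upwards [h3] with x hx
  refine hx.trans (mul_le_mul_of_nonneg_right ?_ (Nat.cast_nonneg x))
  linarith

/-- the forms are admissible -/
def Adm {k : ℕ} (a b : Fin k → ℕ) : Prop := (∀ i, 1 ≤ a i) ∧ ∀ i j, i ≠ j → a i * b j ≠ a j * b i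

/-- Chowla's conjecture of order `k` for `f` -/
def Chowla (f : ℕ → ℤ) (k : ℕ) : Prop := ∀ a b : Fin k → ℕ, Adm a b →
  Tendsto (fun x : ℕ => ((corr f a b x : ℤ) : ℝ) / x) atTop (𝓝 0)

theorem tend_of_eps {S : ℕ → ℝ} (h : ∀ m : ℕ, ∀ᶠ x : ℕ in atTop, |S x| ≤ 3 * (1 / ((m : ℝ) + 1)) * x) :
    Tendsto (fun x : ℕ => S x / x) atTop (𝓝 0) := by
  rw [Metric.tendsto_atTop]
  intro e he
  obtain ⟨m, hm⟩ := exists_nat_one_div_lt (show 0 < e / 4 by positivity)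
  obtain ⟨N, hN⟩ := eventually_atTop.1 (h m)
  refine ⟨max N 1, fun x hx => ?_⟩
  have hx1 : 1 ≤ x := (le_max_right _ _).trans hx
  have hx0 : (0 : ℝ) < x := by exact_mod_cast hx1
  have h2 := hN x ((le_max_left _ _).trans hx)
  rw [Real.dist_eq, sub_zero, abs_div, abs_of_pos hx0, div_lt_iff₀ hx0]
  refine lt_of_le_of_lt h2 ?_
  apply mul_lt_mul_of_pos_right _ hx0
  linarith

/-- **the almost sure theorem** -/
theorem as_main (hind : iIndepFun ξ μ) (hm : ∀ p, Measurable (ξ p))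
    (hξ : ∀ p ω, ξ p ω = 1 ∨ ξ p ω = -1) (h0 : ∀ p, 0 ≤ δ p) (h1 : ∀ p, δ p ≤ 1 / 2)
    (hμ : ∀ p, μ {ω | ξ p ω = -1} = ENNReal.ofReal (δ p)) {Y : ℕ → ℕ}
    (hY1 : Tendsto (fun x : ℕ => (Y x : ℝ) / Real.log (Real.log x)) atTop atTop)
    (hY2 : Tendsto (fun x : ℕ => ∑ p ∈ (Icc 1 x).filter (fun p => p.Prime ∧ Y x < p), δ p / p)
      atTop atTop) :
    ∀ᵐ ω ∂μ, ∀ k : ℕ, 1 ≤ k → Chowla (noisy ξ ω) k := by
  have h2 : ∀ k : ℕ, 1 ≤ k → ∀ a b : Fin k → ℕ, Adm a b → ∀ m : ℕ, ∀ᵐ ω ∂μ,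
      ∀ᶠ x : ℕ in atTop, |((corr (noisy ξ ω) a b x : ℤ) : ℝ)| ≤ 3 * (1 / ((m : ℝ) + 1)) * x :=
    fun k hk a b hab m => as_eps hind hm hξ h0 h1 hμ hk hab.1 hab.2 hY1 hY2 (by positivity)
  unfold Chowla
  rw [ae_all_iff]
  intro k
  by_cases hk : 1 ≤ k
  swap
  · exact Eventually.of_forall fun ω h => absurd h hk
  have h3 : ∀ᵐ ω ∂μ, ∀ ab : (Fin k → ℕ) × (Fin k → ℕ), Adm ab.1 ab.2 → ∀ m : ℕ,
      ∀ᶠ x : ℕ in atTop, |((corr (noisy ξ ω) ab.1 ab.2 x : ℤ) : ℝ)| ≤ 3 * (1 / ((m : ℝ) + 1)) * x := by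
    rw [ae_all_iff]
    intro ab
    by_cases hab : Adm ab.1 ab.2
    swap
    · exact Eventually.of_forall fun ω h => absurd h hab
    have h4 : ∀ᵐ ω ∂μ, ∀ m : ℕ,
        ∀ᶠ x : ℕ in atTop, |((corr (noisy ξ ω) ab.1 ab.2 x : ℤ) : ℝ)| ≤ 3 * (1 / ((m : ℝ) + 1)) * x := by
      rw [ae_all_iff]
      exact fun m => h2 k hk ab.1 ab.2 hab m
    filter_upwards [h4] with ω hω _
    exact hω
  filter_upwards [h3] with ω hω _ a b hab
  exact tend_of_eps (S := fun x => ((corr (noisy ξ ω) a b x : ℤ) : ℝ)) (hω (a, b) hab)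

/-- **convergence in probability** -/
theorem prob_tend (hind : iIndepFun ξ μ) (hm : ∀ p, Measurable (ξ p))
    (hξ : ∀ p ω, ξ p ω = 1 ∨ ξ p ω = -1) (h0 : ∀ p, 0 ≤ δ p) (h1 : ∀ p, δ p ≤ 1 / 2)
    (hμ : ∀ p, μ {ω | ξ p ω = -1} = ENNReal.ofReal (δ p))
    (hns : ¬ Summable (fun p : ℕ => if p.Prime then δ p / p else 0)) (hk : 1 ≤ k) (hab : Adm a b)
    {ε : ℝ} (hε : 0 < ε) :
    Tendsto (fun x : ℕ => μ {ω | ε * x ≤ |((corr (noisy ξ ω) a b x : ℤ) : ℝ)|}) atTop (𝓝 0) := by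
  obtain ⟨A, hA1, hA2, hA3⟩ := exists_bound a b
  obtain ⟨c, hc⟩ : ∃ c : ℝ, c = ε ^ 2 / (64 * k ^ 2 * (1 + A)) := ⟨_, rfl⟩
  have hk0 : (0 : ℝ) < k := by exact_mod_cast hk
  have hA0 : (1 : ℝ) ≤ A := by exact_mod_cast hA1
  have hc0 : 0 < c := by rw [hc]; positivity
  have hf0 : ∀ p : ℕ, 0 ≤ (if p.Prime then δ p / p else (0 : ℝ)) := by
    intro p
    split_ifs
    · exact div_nonneg (h0 p) (Nat.cast_nonneg p)
    · exact le_rfl
  have hdiv : Tendsto (fun n : ℕ => ∑ p ∈ range n, (if p.Prime then δ p / p else (0 : ℝ))) atTop atTop :=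
    (not_summable_iff_tendsto_nat_atTop_of_nonneg hf0).1 hns
  have hYdiv : ∀ y : ℕ, Tendsto (fun x : ℕ => ∑ p ∈ (Icc 1 x).filter (fun p => p.Prime ∧ y < p), δ p / p)
      atTop atTop := by
    intro y
    have h2 := tendsto_atTop_add_const_right atTop
      (-(∑ p ∈ range (y + 1), (if p.Prime then δ p / p else (0 : ℝ))))
      (hdiv.comp (tendsto_add_atTop_nat 1))
    refine tendsto_atTop_mono' atTop ?_ h2
    filter_upwards [eventually_ge_atTop y] with x hx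
    simp only [Function.comp_apply]
    have h3 : ∑ p ∈ range (x + 1), (if p.Prime then δ p / p else (0 : ℝ)) =
        ∑ p ∈ range (y + 1), (if p.Prime then δ p / p else (0 : ℝ)) +
        ∑ p ∈ (Icc 1 x).filter (fun p => p.Prime ∧ y < p), δ p / p := by
      rw [← Finset.sum_filter, ← Finset.sum_filter, ← Finset.sum_union]
      · congr 1
        ext p
        simp only [mem_filter, mem_range, mem_union, mem_Icc]
        constructor
        · rintro ⟨h4, h5⟩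
          rcases le_or_gt p y with h6 | h6
          · exact Or.inl ⟨by omega, h5⟩
          · exact Or.inr ⟨⟨h5.one_lt.le, by omega⟩, h5, h6⟩
        · rintro (⟨h4, h5⟩ | ⟨⟨h4, h5⟩, h6, h7⟩)
          · exact ⟨by omega, h5⟩
          · exact ⟨by omega, h6⟩
      · rw [Finset.disjoint_left]
        intro p hp hp'
        rw [mem_filter, mem_range] at hp
        rw [mem_filter] at hp'
        omega
    rw [h3]
    linarith
  rw [ENNReal.tendsto_nhds_zero]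
  intro η hη
  -- the choice of `y`
  have e1 : Tendsto (fun y : ℕ => ENNReal.ofReal (2 * Real.exp (-(c * y)))) atTop (𝓝 0) := by
    have h2 : Tendsto (fun y : ℕ => 2 * Real.exp (-(c * y))) atTop (𝓝 (2 * 0)) := by
      apply Tendsto.const_mul
      exact Real.tendsto_exp_neg_atTop_nhds_zero.comp (cast_tend.const_mul_atTop hc0)
    rw [mul_zero] at h2
    have h3 := ENNReal.tendsto_ofReal h2
    rwa [ENNReal.ofReal_zero] at h3
  have e2 := (ENNReal.tendsto_nhds_zero.1 e1) η hη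
  obtain ⟨y, hy1, hy2, hy3⟩ := (e2.and ((cast_tend.eventually_ge_atTop (4 / ε)).and
    (eventually_ge_atTop A))).exists
  have hMt := M_tend δ h0 h1 (fun _ => y) (hYdiv y)
  obtain ⟨C₁, hC₁⟩ := tail_primes
  filter_upwards [hMt.eventually_ge_atTop 1, hMt.eventually_ge_atTop (88 / ε), hC₁,
    eventually_ge_atTop y] with x e3 e4 e5 e6
  obtain ⟨M, hM⟩ : ∃ M, M = ∑ p ∈ (Icc 1 (zz x)).filter (fun p => p.Prime ∧ y < p), δ p / p :=
    ⟨_, rfl⟩
  rw [← hM] at e3 e4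
  have hy0 : (0 : ℝ) < y := by exact_mod_cast (lt_of_lt_of_le hA1 hy3)
  refine (prob_main hind hm hξ h0 h1 hμ hk hab.1 hab.2 (hA1.trans hy3)
    (fun i j => ⟨(hA2 i j).1.trans hy3, (hA2 i j).2.trans hy3⟩) e6 e5.1 (zz_pow x) hM e3
    hA1 hA3 hε ?_).trans ?_
  · have h2 : 1 / (y : ℝ) ≤ ε / 4 := by
      rw [div_le_iff₀ hy0]
      rw [div_le_iff₀ hε] at hy2
      linarith
    have h3 : 22 / M ≤ ε / 4 := by
      rw [div_le_iff₀ (by linarith)]
      rw [div_le_iff₀ hε] at e4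
      linarith
    linarith
  · rw [← hc]
    exact hy1

end

end Pool.Agent.U26Z.NL
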