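import Mathlib

set_option autoImplicit false

/-!
# Completely multiplicative functions, counting in progressions
-/

namespace Pool.Agent.U26Z.NL

open Finset

/-- the completely multiplicative function with the values `s p` at the primes `p` -/
def cm (s : ℕ → ℤ) (n : ℕ) : ℤ := n.factorization.prod fun p k => s p ^ k

theorem cm_mul (s : ℕ → ℤ) {m n : ℕ} (hm : m ≠ 0) (hn : n ≠ 0) :
    cm s (m * n) = cm s m * cm s n := by
  unfold cm
  rw [Nat.factorization_mul hm hn]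
  exact Finsupp.prod_add_index' (fun p => pow_zero _) (fun p k l => pow_add _ _ _)

theorem cm_one (s : ℕ → ℤ) : cm s 1 = 1 := by
  simp [cm]

theorem cm_prod (s : ℕ → ℤ) {ι : Type*} (t : Finset ι) (L : ι → ℕ) (h : ∀ i ∈ t, L i ≠ 0) :
    cm s (∏ i ∈ t, L i) = ∏ i ∈ t, cm s (L i) := by
  classical
  induction t using Finset.induction_on with
  | empty => simp [cm_one]
  | insert i t hi ih =>
    rw [Finset.prod_insert hi, Finset.prod_insert hi, cm_mul s (h i (Finset.mem_insert_self i t))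
      (Finset.prod_ne_zero_iff.2 fun j hj => h j (Finset.mem_insert_of_mem hj)),
      ih fun j hj => h j (Finset.mem_insert_of_mem hj)]

theorem cm_mul_fun (s t : ℕ → ℤ) (n : ℕ) : cm (fun p => s p * t p) n = cm s n * cm t n := by
  unfold cm
  rw [← Finsupp.prod_mul]
  exact Finsupp.prod_congr fun p _ => mul_pow _ _ _

theorem cm_prime (s : ℕ → ℤ) {p : ℕ} (hp : p.Prime) : cm s p = s p := by
  unfold cm
  rw [hp.factorization]
  rw [Finsupp.prod_single_index (h := fun p k => s p ^ k) (pow_zero _), pow_one]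

theorem cm_abs {s : ℕ → ℤ} (h : ∀ p, |s p| = 1) (n : ℕ) : |cm s n| = 1 := by
  unfold cm Finsupp.prod
  rw [Finset.abs_prod]
  refine Finset.prod_eq_one fun p _ => ?_
  rw [abs_pow, h p, one_pow]

theorem cm_congr {s t : ℕ → ℤ} {n : ℕ} (h : ∀ p, p.Prime → p ∣ n → s p = t p) : cm s n = cm t n := by
  unfold cm
  refine Finsupp.prod_congr fun p hp => ?_
  rw [Nat.support_factorization, Nat.mem_primeFactors] at hp
  rw [h p hp.1 hp.2.1]

/-- a finite set of sign changes -/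
theorem cm_flip (T : Finset ℕ) (n : ℕ) :
    cm (fun p => if p ∈ T then -1 else 1) n = ∏ p ∈ T, (-1) ^ n.factorization p := by
  unfold cm Finsupp.prod
  have h1 : ∏ p ∈ n.factorization.support, (if p ∈ T then (-1 : ℤ) else 1) ^ n.factorization p =
      ∏ p ∈ n.factorization.support ∪ T, (if p ∈ T then (-1 : ℤ) else 1) ^ n.factorization p := by
    refine Finset.prod_subset Finset.subset_union_left fun p _ hp => ?_
    rw [Finsupp.notMem_support_iff] at hp
    rw [hp, pow_zero]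
  rw [h1, ← Finset.prod_subset (Finset.subset_union_right (s₁ := n.factorization.support))]
  · refine Finset.prod_congr rfl fun p hp => ?_
    rw [if_pos hp]
  · intro p _ hp
    rw [if_neg hp, one_pow]

/-- the Liouville function with the signs at the primes in `T` changed -/
def lamT (T : Finset ℕ) (n : ℕ) : ℤ := cm (fun p => if p ∈ T then 1 else -1) n

theorem lamT_eq (T : Finset ℕ) (n : ℕ) :
    lamT T n = cm (fun _ => -1) n * ∏ p ∈ T, (-1) ^ n.factorization p := by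
  unfold lamT
  rw [← cm_flip, ← cm_mul_fun]
  congr 1
  funext p
  split_ifs <;> norm_num

theorem lam_abs (n : ℕ) : |cm (fun _ => -1) n| = 1 := cm_abs (fun _ => by norm_num) n

/-- counting in progressions -/
theorem cnt {q a : ℕ} (b x : ℕ) (hq : 0 < q) (hc : Nat.Coprime a q) :
    |(((Icc 1 x).filter (fun n => q ∣ a * n + b)).card : ℝ) - x / q| ≤ 1 := by
  have : NeZero q := ⟨hq.ne'⟩
  obtain ⟨r, hr⟩ : ∃ r : ℕ, q ∣ a * r + b := by
    refine ⟨((-(b : ZMod q)) * (a : ZMod q)⁻¹).val, ?_⟩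
    rw [← ZMod.natCast_eq_zero_iff]
    push_cast
    rw [ZMod.natCast_zmod_val]
    have h1 := ZMod.coe_mul_inv_eq_one a hc
    linear_combination (-(b : ZMod q)) * h1
  have h1 : (Icc 1 x).filter (fun n => q ∣ a * n + b) = (Ioc 0 x).filter (fun n => n ≡ r [MOD q]) := by
    ext n
    simp only [mem_filter, mem_Icc, mem_Ioc]
    have h2 : (1 ≤ n ∧ n ≤ x) ↔ (0 < n ∧ n ≤ x) := Iff.rfl
    rw [h2]
    refine and_congr_right fun _ => ?_
    constructor
    · intro h3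
      have h4 : a * n ≡ a * r [MOD q] := by
        have h5 : a * n + b ≡ a * r + b [MOD q] :=
          ((Nat.modEq_zero_iff_dvd.2 h3).trans (Nat.modEq_zero_iff_dvd.2 hr).symm)
        exact Nat.ModEq.add_right_cancel' b h5
      exact Nat.ModEq.cancel_left_of_coprime (by rw [Nat.gcd_comm]; exact hc) h4
    · intro h3
      have h5 : a * n + b ≡ a * r + b [MOD q] := (h3.mul_left a).add_right b
      exact Nat.modEq_zero_iff_dvd.1 (h5.trans (Nat.modEq_zero_iff_dvd.2 hr))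
  rw [h1]
  have h2 := Nat.Ioc_filter_modEq_card 0 x hq r
  have h3 : ⌊((0 : ℕ) - (r : ℚ)) / (q : ℚ)⌋ ≤ ⌊((x : ℕ) - (r : ℚ)) / (q : ℚ)⌋ := by
    apply Int.floor_mono
    apply div_le_div_of_nonneg_right _ (Nat.cast_nonneg q)
    push_cast
    have : (0 : ℚ) ≤ x := Nat.cast_nonneg x
    linarith
  rw [max_eq_left (by linarith)] at h2
  obtain ⟨A, hA⟩ : ∃ A : ℤ, A = ⌊((x : ℕ) - (r : ℚ)) / (q : ℚ)⌋ := ⟨_, rfl⟩
  obtain ⟨B, hB⟩ : ∃ B : ℤ, B = ⌊((0 : ℕ) - (r : ℚ)) / (q : ℚ)⌋ := ⟨_, rfl⟩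
  rw [← hA, ← hB] at h2
  have hA1 : (A : ℚ) ≤ ((x : ℕ) - (r : ℚ)) / (q : ℚ) := by rw [hA]; exact Int.floor_le _
  have hA2 : ((x : ℕ) - (r : ℚ)) / (q : ℚ) < A + 1 := by rw [hA]; exact Int.lt_floor_add_one _
  have hB1 : (B : ℚ) ≤ ((0 : ℕ) - (r : ℚ)) / (q : ℚ) := by rw [hB]; exact Int.floor_le _
  have hB2 : ((0 : ℕ) - (r : ℚ)) / (q : ℚ) < B + 1 := by rw [hB]; exact Int.lt_floor_add_one _
  have e1 : ((x : ℕ) - (r : ℚ)) / (q : ℚ) = (x : ℚ) / q + ((0 : ℕ) - (r : ℚ)) / (q : ℚ) := by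
    push_cast
    ring
  have h4 : |((A - B : ℤ) : ℚ) - (x : ℚ) / q| ≤ 1 := by
    rw [abs_le]
    push_cast
    constructor <;> linarith
  have h5 : |((A - B : ℤ) : ℝ) - (x : ℝ) / q| ≤ 1 := by
    have h6 : ((|((A - B : ℤ) : ℚ) - (x : ℚ) / q| : ℚ) : ℝ) ≤ ((1 : ℚ) : ℝ) := by exact_mod_cast h4
    push_cast at h6 ⊢
    exact h6
  have h6 : ((((Ioc 0 x).filter (fun n => n ≡ r [MOD q])).card : ℤ) : ℝ) = ((A - B : ℤ) : ℝ) := by
    exact_mod_cast h2
  rw [Int.cast_natCast] at h6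
  rw [h6]
  exact h5

/-- the sum of the reciprocals of the squares -/
theorem sum_sq_le {y : ℕ} (hy : 1 ≤ y) (F : Finset ℕ) (hF : ∀ p ∈ F, y < p) :
    ∑ p ∈ F, (1 : ℝ) / (p : ℝ) ^ 2 ≤ 1 / y := by
  have h1 : ∀ m : ℕ, ∑ p ∈ Finset.Ioc y (y + m), (1 : ℝ) / (p : ℝ) ^ 2 ≤ 1 / y - 1 / (y + m : ℕ) := by
    intro m
    induction m with
    | zero => simp
    | succ m ih =>
      rw [← add_assoc, Finset.sum_Ioc_succ_top (by omega)]
      have hy0 : (0 : ℝ) < ((y + m : ℕ) : ℝ) := by exact_mod_cast (by omega : 0 < y + m)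
      have h2 : (1 : ℝ) / (((y + m + 1 : ℕ) : ℝ)) ^ 2 ≤ 1 / ((y + m : ℕ) : ℝ) - 1 / ((y + m + 1 : ℕ) : ℝ) := by
        have e : (((y + m + 1 : ℕ) : ℝ)) = ((y + m : ℕ) : ℝ) + 1 := by push_cast; ring
        rw [e, div_sub_div _ _ hy0.ne' (by positivity), div_le_div_iff₀ (by positivity) (by positivity)]
        nlinarith
      linarith
  rcases Finset.eq_empty_or_nonempty F with rfl | hne
  · simp
  · have h2 : F ⊆ Finset.Ioc y (y + F.sup id) := by
      intro p hp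
      rw [Finset.mem_Ioc]
      have h3 : p ≤ F.sup id := Finset.le_sup (f := id) hp
      exact ⟨hF p hp, by omega⟩
    have h3 := Finset.sum_le_sum_of_subset_of_nonneg h2
      (f := fun p : ℕ => (1 : ℝ) / (p : ℝ) ^ 2) (fun p _ _ => by positivity)
    refine h3.trans ((h1 _).trans ?_)
    have : (0 : ℝ) ≤ 1 / ((y + F.sup id : ℕ) : ℝ) := by positivity
    linarith

end Pool.Agent.U26Z.NL
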