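import Mathlib

set_option autoImplicit false

/-!
# Concentration on a finite cube with biased independent coordinates
-/

namespace Pool.Agent.U26Z.NL

open Finset

/-- the expectation over the random subset of `F` which contains `p` with probability `δ p` -/
noncomputable def EE (δ : ℕ → ℝ) (F : Finset ℕ) (f : Finset ℕ → ℝ) : ℝ :=
  ∑ T ∈ F.powerset, (∏ p ∈ F, if p ∈ T then δ p else 1 - δ p) * f T

variable {δ : ℕ → ℝ}

theorem EE_empty (f : Finset ℕ → ℝ) : EE δ ∅ f = f ∅ := by
  simp [EE]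

theorem EE_insert {p : ℕ} {F : Finset ℕ} (hp : p ∉ F) (f : Finset ℕ → ℝ) :
    EE δ (insert p F) f = (1 - δ p) * EE δ F f + δ p * EE δ F (fun T => f (insert p T)) := by
  unfold EE
  rw [Finset.sum_powerset_insert hp, Finset.mul_sum, Finset.mul_sum]
  congr 1
  · refine Finset.sum_congr rfl fun T hT => ?_
    rw [Finset.mem_powerset] at hT
    have h1 : p ∉ T := fun h => hp (hT h)
    rw [Finset.prod_insert hp, if_neg h1, mul_assoc]
  · refine Finset.sum_congr rfl fun T hT => ?_
    rw [Finset.mem_powerset] at hT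
    rw [Finset.prod_insert hp, if_pos (Finset.mem_insert_self p T), mul_assoc]
    congr 2
    refine Finset.prod_congr rfl fun q hq => ?_
    have h1 : q ≠ p := fun h => hp (h ▸ hq)
    simp [Finset.mem_insert, h1]

theorem EE_mono (h0 : ∀ p, 0 ≤ δ p) (h1 : ∀ p, δ p ≤ 1) {F : Finset ℕ} {f g : Finset ℕ → ℝ}
    (h : ∀ T, T ⊆ F → f T ≤ g T) : EE δ F f ≤ EE δ F g := by
  unfold EE
  refine Finset.sum_le_sum fun T hT => ?_
  refine mul_le_mul_of_nonneg_left (h T (Finset.mem_powerset.1 hT)) (Finset.prod_nonneg fun p _ => ?_)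
  split_ifs
  · exact h0 p
  · linarith [h1 p]

theorem EE_const (c : ℝ) (F : Finset ℕ) : EE δ F (fun _ => c) = c := by
  induction F using Finset.induction_on with
  | empty => rw [EE_empty]
  | insert p F hp ih => rw [EE_insert hp, ih]; ring

theorem EE_smul (c : ℝ) (F : Finset ℕ) (f : Finset ℕ → ℝ) :
    EE δ F (fun T => c * f T) = c * EE δ F f := by
  unfold EE
  rw [Finset.mul_sum]
  exact Finset.sum_congr rfl fun T _ => by ring

theorem EE_add (F : Finset ℕ) (f g : Finset ℕ → ℝ) :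
    EE δ F (fun T => f T + g T) = EE δ F f + EE δ F g := by
  unfold EE
  rw [← Finset.sum_add_distrib]
  exact Finset.sum_congr rfl fun T _ => by ring

theorem EE_sum {ι : Type*} (s : Finset ι) (F : Finset ℕ) (f : ι → Finset ℕ → ℝ) :
    EE δ F (fun T => ∑ i ∈ s, f i T) = ∑ i ∈ s, EE δ F (f i) := by
  unfold EE
  rw [Finset.sum_comm]
  exact Finset.sum_congr rfl fun T _ => by rw [Finset.mul_sum]

/-- a product over the random set -/
theorem EE_prod (s : ℕ → ℝ) (F : Finset ℕ) :
    EE δ F (fun T => ∏ p ∈ T, s p) = ∏ p ∈ F, (1 - δ p + δ p * s p) := by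
  induction F using Finset.induction_on with
  | empty => simp [EE_empty]
  | insert p F hp ih =>
    rw [EE_insert hp, Finset.prod_insert hp, ih]
    have h1 : EE δ F (fun T => ∏ q ∈ insert p T, s q) = s p * EE δ F (fun T => ∏ q ∈ T, s q) := by
      rw [← EE_smul]
      unfold EE
      refine Finset.sum_congr rfl fun T hT => ?_
      rw [Finset.mem_powerset] at hT
      show _ * (∏ q ∈ insert p T, s q) = _ * (s p * ∏ q ∈ T, s q)
      rw [Finset.prod_insert (fun h => hp (hT h))]
    rw [h1, ih]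
    ring

theorem two_point {δ a b c u : ℝ} (h0 : 0 ≤ δ) (h1 : δ ≤ 1) (hc : |b - a| ≤ c) :
    (1 - δ) * Real.exp (u * a) + δ * Real.exp (u * b) ≤
      Real.exp (u ^ 2 * c ^ 2 / 2) * Real.exp (u * ((1 - δ) * a + δ * b)) := by
  have h2 : Real.exp (-(u * ((1 - δ) * a + δ * b))) ≤
      (1 - δ) * Real.exp (-(u * a)) + δ * Real.exp (-(u * b)) := by
    have h3 := convexOn_exp.2 (Set.mem_univ (-(u * a))) (Set.mem_univ (-(u * b)))
      (show 0 ≤ 1 - δ by linarith) h0 (by ring)
    simp only [smul_eq_mul] at h3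
    refine le_trans (le_of_eq ?_) h3
    congr 1
    ring
  have h4 : 0 ≤ (1 - δ) * Real.exp (u * a) + δ * Real.exp (u * b) := by
    have := Real.exp_pos (u * a)
    have := Real.exp_pos (u * b)
    have : 0 ≤ 1 - δ := by linarith
    positivity
  have h5 := mul_le_mul_of_nonneg_left h2 h4
  have h6 : ((1 - δ) * Real.exp (u * a) + δ * Real.exp (u * b)) *
      ((1 - δ) * Real.exp (-(u * a)) + δ * Real.exp (-(u * b))) =
      1 - 2 * δ * (1 - δ) + 2 * δ * (1 - δ) * Real.cosh (u * (b - a)) := by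
    have e1 : Real.exp (u * a) * Real.exp (-(u * a)) = 1 := by rw [← Real.exp_add]; simp
    have e2 : Real.exp (u * b) * Real.exp (-(u * b)) = 1 := by rw [← Real.exp_add]; simp
    have e3 : Real.exp (u * b) * Real.exp (-(u * a)) = Real.exp (u * (b - a)) := by
      rw [← Real.exp_add]; ring_nf
    have e4 : Real.exp (u * a) * Real.exp (-(u * b)) = Real.exp (-(u * (b - a))) := by
      rw [← Real.exp_add]; ring_nf
    rw [Real.cosh_eq]
    calc _ = (1 - δ) ^ 2 * (Real.exp (u * a) * Real.exp (-(u * a))) +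
          δ ^ 2 * (Real.exp (u * b) * Real.exp (-(u * b))) +
          δ * (1 - δ) * (Real.exp (u * b) * Real.exp (-(u * a)) +
            Real.exp (u * a) * Real.exp (-(u * b))) := by ring
      _ = _ := by rw [e1, e2, e3, e4]; ring
  rw [h6] at h5
  have h7 : 1 - 2 * δ * (1 - δ) + 2 * δ * (1 - δ) * Real.cosh (u * (b - a)) ≤
      Real.cosh (u * (b - a)) := by
    have h8 := Real.one_le_cosh (u * (b - a))
    have h9 : 0 ≤ 1 - 2 * δ * (1 - δ) := by nlinarith [sq_nonneg (δ - 1 / 2)]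
    nlinarith
  have h8 : Real.cosh (u * (b - a)) ≤ Real.exp (u ^ 2 * c ^ 2 / 2) := by
    refine (Real.cosh_le_exp_half_sq _).trans (Real.exp_le_exp.2 ?_)
    have h9 : (b - a) ^ 2 ≤ c ^ 2 := sq_le_sq' (by linarith [neg_le_abs (b - a)])
      ((le_abs_self _).trans hc)
    have h10 := mul_le_mul_of_nonneg_left h9 (sq_nonneg u)
    rw [mul_pow]
    linarith
  have h9 := h5.trans (h7.trans h8)
  rw [Real.exp_neg, ← div_eq_mul_inv, div_le_iff₀ (Real.exp_pos _)] at h9
  exact h9

/-- bounded differences -/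
def BD (c : ℕ → ℝ) (F : Finset ℕ) (f : Finset ℕ → ℝ) : Prop :=
  ∀ p ∈ F, ∀ T : Finset ℕ, p ∉ T → |f (insert p T) - f T| ≤ c p

theorem mgf (h0 : ∀ p, 0 ≤ δ p) (h1 : ∀ p, δ p ≤ 1) (c : ℕ → ℝ) (u : ℝ) (F : Finset ℕ) :
    ∀ f : Finset ℕ → ℝ, BD c F f →
      EE δ F (fun T => Real.exp (u * f T)) ≤
        Real.exp (u ^ 2 * (∑ p ∈ F, c p ^ 2) / 2) * Real.exp (u * EE δ F f) := by
  induction F using Finset.induction_on with
  | empty =>
    intro f _
    simp [EE_empty]
  | insert p F hp ih =>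
    intro f hf
    have hf1 : BD c F f := fun q hq T hT => hf q (Finset.mem_insert_of_mem hq) T hT
    have hf2 : BD c F (fun T => f (insert p T)) := by
      intro q hq T hT
      have hqp : q ≠ p := fun h => hp (h ▸ hq)
      have h2 := hf q (Finset.mem_insert_of_mem hq) (insert p T) (by
        rw [Finset.mem_insert, not_or]
        exact ⟨hqp, hT⟩)
      rw [Finset.insert_comm] at h2
      exact h2
    have h3 := ih f hf1
    have h4 := ih _ hf2
    rw [EE_insert hp, EE_insert hp, Finset.sum_insert hp]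
    have h5 : |EE δ F (fun T => f (insert p T)) - EE δ F f| ≤ c p := by
      have h6 : EE δ F (fun T => f (insert p T)) - EE δ F f =
          EE δ F (fun T => f (insert p T) - f T) := by
        have := EE_add (δ := δ) F (fun T => f (insert p T) - f T) f
        simp only [sub_add_cancel] at this
        linarith
      rw [h6, abs_le]
      constructor
      · rw [← EE_const (δ := δ) (-(c p)) F]
        refine EE_mono h0 h1 fun T hT => ?_
        exact (abs_le.1 (hf p (Finset.mem_insert_self p F) T (fun h => hp (hT h)))).1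
      · rw [← EE_const (δ := δ) (c p) F]
        refine EE_mono h0 h1 fun T hT => ?_
        exact (abs_le.1 (hf p (Finset.mem_insert_self p F) T (fun h => hp (hT h)))).2
    have h6 := two_point (u := u) (h0 p) (h1 p) h5
    have h7 : 0 ≤ 1 - δ p := by linarith [h1 p]
    have h8 := h0 p
    calc (1 - δ p) * EE δ F (fun T => Real.exp (u * f T)) +
        δ p * EE δ F (fun T => Real.exp (u * f (insert p T))) ≤
        (1 - δ p) * (Real.exp (u ^ 2 * (∑ p ∈ F, c p ^ 2) / 2) * Real.exp (u * EE δ F f)) +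
        δ p * (Real.exp (u ^ 2 * (∑ p ∈ F, c p ^ 2) / 2) *
          Real.exp (u * EE δ F (fun T => f (insert p T)))) :=
          add_le_add (mul_le_mul_of_nonneg_left h3 h7) (mul_le_mul_of_nonneg_left h4 h8)
      _ = Real.exp (u ^ 2 * (∑ p ∈ F, c p ^ 2) / 2) * ((1 - δ p) * Real.exp (u * EE δ F f) +
          δ p * Real.exp (u * EE δ F (fun T => f (insert p T)))) := by ring
      _ ≤ Real.exp (u ^ 2 * (∑ p ∈ F, c p ^ 2) / 2) * (Real.exp (u ^ 2 * c p ^ 2 / 2) *
          Real.exp (u * ((1 - δ p) * EE δ F f + δ p * EE δ F (fun T => f (insert p T))))) :=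
          mul_le_mul_of_nonneg_left h6 (Real.exp_pos _).le
      _ = _ := by
          rw [← mul_assoc, ← Real.exp_add]
          congr 2
          ring

/-- the tail bound -/
theorem tail (h0 : ∀ p, 0 ≤ δ p) (h1 : ∀ p, δ p ≤ 1) (c : ℕ → ℝ) (F : Finset ℕ)
    (f : Finset ℕ → ℝ) (hf : BD c F f) {V t : ℝ} (hV : 0 < V) (hcV : ∑ p ∈ F, c p ^ 2 ≤ V)
    (ht : 0 ≤ t) :
    EE δ F (fun T => if EE δ F f + t ≤ f T then 1 else 0) ≤ Real.exp (-(t ^ 2 / (2 * V))) := by
  obtain ⟨u, hu⟩ : ∃ u, u = t / V := ⟨_, rfl⟩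
  have hu0 : 0 ≤ u := by rw [hu]; positivity
  have h2 : EE δ F (fun T => if EE δ F f + t ≤ f T then 1 else 0) ≤
      EE δ F (fun T => Real.exp (-(u * (EE δ F f + t))) * Real.exp (u * f T)) := by
    refine EE_mono h0 h1 fun T _ => ?_
    rw [← Real.exp_add]
    split_ifs with h
    · apply Real.one_le_exp
      nlinarith
    · exact (Real.exp_pos _).le
  rw [EE_smul] at h2
  refine h2.trans ((mul_le_mul_of_nonneg_left (mgf h0 h1 c u F f hf) (Real.exp_pos _).le).trans ?_)
  rw [← Real.exp_add, ← Real.exp_add]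
  apply Real.exp_le_exp.2
  have h3 : u ^ 2 * (∑ p ∈ F, c p ^ 2) ≤ u ^ 2 * V := mul_le_mul_of_nonneg_left hcV (sq_nonneg u)
  have h4 : u ^ 2 * V = t ^ 2 / V := by rw [hu]; field_simp
  have h5 : u * t = t ^ 2 / V := by rw [hu]; field_simp
  have h6 : t ^ 2 / (2 * V) = t ^ 2 / V / 2 := by field_simp
  rw [h6]
  linarith

theorem BD_neg {c : ℕ → ℝ} {F : Finset ℕ} {f : Finset ℕ → ℝ} (hf : BD c F f) :
    BD c F (fun T => -f T) := by
  intro p hp T hT
  have := hf p hp T hT
  rw [← abs_neg]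
  convert this using 2
  ring

/-- two-sided tail bound around `0` for a function with small mean -/
theorem tail2 (h0 : ∀ p, 0 ≤ δ p) (h1 : ∀ p, δ p ≤ 1) (c : ℕ → ℝ) (F : Finset ℕ)
    (f : Finset ℕ → ℝ) (hf : BD c F f) {V t : ℝ} (hV : 0 < V) (hcV : ∑ p ∈ F, c p ^ 2 ≤ V)
    (ht : 0 ≤ t) (hE : |EE δ F f| ≤ t) :
    EE δ F (fun T => if 2 * t ≤ |f T| then 1 else 0) ≤ 2 * Real.exp (-(t ^ 2 / (2 * V))) := by
  have h2 := tail h0 h1 c F f hf hV hcV ht
  have h3 := tail h0 h1 c F _ (BD_neg hf) hV hcV ht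
  have h4 : EE δ F (fun T => -f T) = - EE δ F f := by
    have := EE_smul (δ := δ) (-1) F f
    simp only [neg_mul, one_mul] at this
    exact this
  rw [h4] at h3
  have h5 : EE δ F (fun T => if 2 * t ≤ |f T| then 1 else 0) ≤
      EE δ F (fun T => (if EE δ F f + t ≤ f T then 1 else 0) +
        (if -EE δ F f + t ≤ -f T then 1 else 0)) := by
    refine EE_mono h0 h1 fun T _ => ?_
    obtain ⟨h6, h7⟩ := abs_le.1 hE
    split_ifs with h8 h9 h10 h10 h9 h10 h10
    all_goals try norm_num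
    rcases le_abs.1 h8 with h11 | h11
    · exact h9 (by linarith)
    · exact h10 (by linarith)
  rw [EE_add] at h5
  linarith

/-- conditioning on the coordinates outside `F` -/
theorem EE_union (h0 : ∀ p, 0 ≤ δ p) (h1 : ∀ p, δ p ≤ 1) {F₂ : Finset ℕ} {B : ℝ} (F₁ : Finset ℕ) :
    Disjoint F₁ F₂ → ∀ f : Finset ℕ → ℝ, (∀ T₁, T₁ ⊆ F₁ → EE δ F₂ (fun T => f (T₁ ∪ T)) ≤ B) →
      EE δ (F₁ ∪ F₂) f ≤ B := by
  induction F₁ using Finset.induction_on with
  | empty =>
    intro _ f h
    have := h ∅ (Finset.Subset.refl _)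
    simpa using this
  | insert p F₁ hp ih =>
    intro hd f h
    rw [Finset.disjoint_insert_left] at hd
    have hp2 : p ∉ F₁ ∪ F₂ := by
      rw [Finset.mem_union, not_or]
      exact ⟨hp, hd.1⟩
    rw [Finset.insert_union, EE_insert hp2]
    have h2 := ih hd.2 f (fun T₁ hT => h T₁ (hT.trans (Finset.subset_insert _ _)))
    have h3 := ih hd.2 (fun T => f (insert p T)) (fun T₁ hT => by
      have h4 := h (insert p T₁) (Finset.insert_subset_insert _ hT)
      simpa only [Finset.insert_union] using h4)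
    have h4 : 0 ≤ 1 - δ p := by linarith [h1 p]
    have h5 := mul_le_mul_of_nonneg_left h2 h4
    have h6 := mul_le_mul_of_nonneg_left h3 (h0 p)
    linarith

end Pool.Agent.U26Z.NL
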