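import Pool.Agent.U26Z.NL.Cm

set_option autoImplicit false

/-!
# A weighted Turan-Kubilius inequality, and the mean of a product of noise factors
-/

namespace Pool.Agent.U26Z.NL

open Finset

theorem cop {a p : ℕ} (ha : 1 ≤ a) (hp : p.Prime) (h : a < p) : Nat.Coprime a p :=
  Nat.Coprime.symm ((Nat.Prime.coprime_iff_not_dvd hp).2 fun hd => by
    have := Nat.le_of_dvd ha hd
    omega)

open Classical in
/-- the second moment -/
theorem tk (δ : ℕ → ℝ) (h0 : ∀ p, 0 ≤ δ p) (h1 : ∀ p, δ p ≤ 1) {a : ℕ} (b x : ℕ) (ha : 1 ≤ a)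
    (P : Finset ℕ) (hP : ∀ p ∈ P, p.Prime ∧ a < p) {M : ℝ} (hM : M = ∑ p ∈ P, δ p / p) :
    ∑ n ∈ Icc 1 x, (∑ p ∈ P.filter (fun p => p ∣ a * n + b), δ p - M) ^ 2 ≤
      x * M + 4 * (P.card : ℝ) ^ 2 := by
  have hP0 : ∀ p ∈ P, (0 : ℝ) < p := fun p hp => by exact_mod_cast (hP p hp).1.pos
  have hM0 : 0 ≤ M := by
    rw [hM]
    exact Finset.sum_nonneg fun p hp => div_nonneg (h0 p) (hP0 p hp).le
  have hMP : M ≤ P.card := by
    rw [hM]
    have : ∑ p ∈ P, δ p / p ≤ ∑ p ∈ P, (1 : ℝ) := by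
      refine Finset.sum_le_sum fun p hp => ?_
      rw [div_le_one (hP0 p hp)]
      have : (1 : ℝ) ≤ p := by exact_mod_cast (hP p hp).1.one_lt.le
      exact (h1 p).trans this
    simpa using this
  have hδP : ∑ p ∈ P, δ p ≤ P.card := by
    have : ∑ p ∈ P, δ p ≤ ∑ p ∈ P, (1 : ℝ) := Finset.sum_le_sum fun p _ => h1 p
    simpa using this
  have hδP0 : 0 ≤ ∑ p ∈ P, δ p := Finset.sum_nonneg fun p _ => h0 p
  -- the first moment
  have e1 : ∀ n : ℕ, ∑ p ∈ P.filter (fun p => p ∣ a * n + b), δ p =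
      ∑ p ∈ P, δ p * (if p ∣ a * n + b then 1 else 0) := by
    intro n
    rw [Finset.sum_filter]
    exact Finset.sum_congr rfl fun p _ => by split_ifs <;> simp
  have f1 : x * M - P.card ≤ ∑ n ∈ Icc 1 x, ∑ p ∈ P.filter (fun p => p ∣ a * n + b), δ p := by
    simp only [e1]
    rw [Finset.sum_comm]
    have h2 : ∀ p ∈ P, δ p * ((x : ℝ) / p) - δ p ≤
        ∑ n ∈ Icc 1 x, δ p * (if p ∣ a * n + b then 1 else 0) := by
      intro p hp
      rw [← Finset.mul_sum, Finset.sum_boole]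
      have h3 := abs_le.1 (cnt b x (hP p hp).1.pos (cop ha (hP p hp).1 (hP p hp).2))
      have h4 : (x : ℝ) / p - 1 ≤ (((Icc 1 x).filter (fun n => p ∣ a * n + b)).card : ℝ) := by
        linarith [h3.1]
      have h5 := mul_le_mul_of_nonneg_left h4 (h0 p)
      linarith
    have h3 := Finset.sum_le_sum h2
    refine le_trans ?_ h3
    rw [Finset.sum_sub_distrib]
    have h4 : ∑ p ∈ P, δ p * ((x : ℝ) / p) = x * M := by
      rw [hM, Finset.mul_sum]
      exact Finset.sum_congr rfl fun p _ => by ring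
    rw [h4]
    linarith
  -- the second moment
  have f2 : ∑ n ∈ Icc 1 x, (∑ p ∈ P.filter (fun p => p ∣ a * n + b), δ p) ^ 2 ≤
      x * M ^ 2 + x * M + (P.card : ℝ) ^ 2 + P.card := by
    have h2 : ∀ n ∈ Icc 1 x, (∑ p ∈ P.filter (fun p => p ∣ a * n + b), δ p) ^ 2 =
        ∑ p ∈ P, ∑ q ∈ P, δ p * δ q * (if p ∣ a * n + b ∧ q ∣ a * n + b then 1 else 0) := by
      intro n _
      rw [e1, sq, Finset.sum_mul_sum]
      refine Finset.sum_congr rfl fun p _ => Finset.sum_congr rfl fun q _ => ?_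
      by_cases hp : p ∣ a * n + b <;> by_cases hq : q ∣ a * n + b <;> simp [hp, hq]
    rw [Finset.sum_congr rfl h2, Finset.sum_comm]
    have h3 : ∀ p ∈ P, ∑ n ∈ Icc 1 x, ∑ q ∈ P,
        δ p * δ q * (if p ∣ a * n + b ∧ q ∣ a * n + b then (1 : ℝ) else 0) ≤
        (∑ q ∈ P, (δ p * δ q * ((x : ℝ) / (p * q)) + δ p * δ q)) + (δ p * ((x : ℝ) / p) + δ p) := by
      intro p hp
      rw [Finset.sum_comm]
      have h4 : ∀ q ∈ P, ∑ n ∈ Icc 1 x,
          δ p * δ q * (if p ∣ a * n + b ∧ q ∣ a * n + b then (1 : ℝ) else 0) ≤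
          (δ p * δ q * ((x : ℝ) / (p * q)) + δ p * δ q) +
            (if q = p then (δ p * ((x : ℝ) / p) + δ p) else 0) := by
        intro q hq
        rw [← Finset.mul_sum, Finset.sum_boole]
        have hpq : 0 ≤ δ p * δ q := mul_nonneg (h0 p) (h0 q)
        by_cases h5 : q = p
        · subst h5
          rw [if_pos rfl]
          have h6 := abs_le.1 (cnt b x (hP q hq).1.pos (cop ha (hP q hq).1 (hP q hq).2))
          simp only [and_self]
          have h7 : (((Icc 1 x).filter (fun n => q ∣ a * n + b)).card : ℝ) ≤ (x : ℝ) / q + 1 := by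
            linarith [h6.2]
          have h8 : δ q * δ q * (((Icc 1 x).filter (fun n => q ∣ a * n + b)).card : ℝ) ≤
              δ q * ((x : ℝ) / q + 1) := by
            have h9 : δ q * δ q ≤ δ q := by nlinarith [h0 q, h1 q]
            have h10 : (0 : ℝ) ≤ (x : ℝ) / q + 1 := by positivity
            exact (mul_le_mul h9 h7 (Nat.cast_nonneg _) (h0 q))
          have h9 : 0 ≤ δ q * δ q * ((x : ℝ) / (q * q)) + δ q * δ q := by positivity
          linarith
        · rw [if_neg h5, add_zero]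
          have h6 : Nat.Coprime p q := (Nat.coprime_primes (hP p hp).1 (hP q hq).1).2 (Ne.symm h5)
          have h7 : (Icc 1 x).filter (fun n => p ∣ a * n + b ∧ q ∣ a * n + b) =
              (Icc 1 x).filter (fun n => p * q ∣ a * n + b) := by
            refine Finset.filter_congr fun n _ => ?_
            constructor
            · rintro ⟨h8, h9⟩
              exact h6.mul_dvd_of_dvd_of_dvd h8 h9
            · intro h8
              exact ⟨(dvd_mul_right p q).trans h8, (dvd_mul_left q p).trans h8⟩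
          rw [h7]
          have h8 := abs_le.1 (cnt (q := p * q) b x (Nat.mul_pos (hP p hp).1.pos (hP q hq).1.pos)
            (Nat.Coprime.mul_right (cop ha (hP p hp).1 (hP p hp).2) (cop ha (hP q hq).1 (hP q hq).2)))
          have h9 : (((Icc 1 x).filter (fun n => p * q ∣ a * n + b)).card : ℝ) ≤
              (x : ℝ) / (p * q) + 1 := by
            have := h8.2
            push_cast at this
            linarith
          have h10 := mul_le_mul_of_nonneg_left h9 hpq
          linarith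
      refine (Finset.sum_le_sum h4).trans ?_
      rw [Finset.sum_add_distrib, Finset.sum_ite_eq' P p, if_pos hp]
    refine (Finset.sum_le_sum h3).trans ?_
    rw [Finset.sum_add_distrib]
    have h4 : ∑ p ∈ P, ∑ q ∈ P, (δ p * δ q * ((x : ℝ) / (p * q)) + δ p * δ q) =
        x * M ^ 2 + (∑ p ∈ P, δ p) ^ 2 := by
      rw [sq, sq, hM, Finset.sum_mul_sum, Finset.sum_mul_sum, Finset.mul_sum, ← Finset.sum_add_distrib]
      refine Finset.sum_congr rfl fun p _ => ?_
      rw [Finset.mul_sum, ← Finset.sum_add_distrib]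
      refine Finset.sum_congr rfl fun q _ => ?_
      rw [div_mul_div_comm]
      ring
    have h5 : ∑ p ∈ P, (δ p * ((x : ℝ) / p) + δ p) = x * M + ∑ p ∈ P, δ p := by
      rw [Finset.sum_add_distrib, hM, Finset.mul_sum]
      congr 1
      exact Finset.sum_congr rfl fun p _ => by ring
    rw [h4, h5]
    have h6 : (∑ p ∈ P, δ p) ^ 2 ≤ (P.card : ℝ) ^ 2 := pow_le_pow_left₀ hδP0 hδP 2
    linarith
  have h2 : ∑ n ∈ Icc 1 x, (∑ p ∈ P.filter (fun p => p ∣ a * n + b), δ p - M) ^ 2 =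
      ∑ n ∈ Icc 1 x, (∑ p ∈ P.filter (fun p => p ∣ a * n + b), δ p) ^ 2 -
        2 * M * ∑ n ∈ Icc 1 x, (∑ p ∈ P.filter (fun p => p ∣ a * n + b), δ p) + x * M ^ 2 := by
    rw [Finset.mul_sum, ← Finset.sum_sub_distrib]
    have h3 : (x : ℝ) * M ^ 2 = ∑ n ∈ Icc 1 x, M ^ 2 := by
      rw [Finset.sum_const, Nat.card_Icc, nsmul_eq_mul]
      simp
    rw [h3, ← Finset.sum_add_distrib]
    exact Finset.sum_congr rfl fun n _ => by ring
  rw [h2]
  have h3 := mul_le_mul_of_nonneg_left f1 (show 0 ≤ 2 * M by linarith)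
  rcases Finset.eq_empty_or_nonempty P with hPe | hPne
  · have hc0 : (P.card : ℝ) = 0 := by rw [hPe]; simp
    have hMz : M = 0 := by rw [hM, hPe]; simp
    rw [hc0, hMz] at f2 ⊢
    linarith
  · have hc1 : (1 : ℝ) ≤ P.card := by exact_mod_cast Finset.card_pos.2 hPne
    have h4 : M * P.card ≤ (P.card : ℝ) ^ 2 := by nlinarith
    have h5 : (P.card : ℝ) ≤ (P.card : ℝ) ^ 2 := by nlinarith
    nlinarith

open Classical in
/-- the mean value of the product of the noise factors -/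
theorem smallMean (δ : ℕ → ℝ) (h0 : ∀ p, 0 ≤ δ p) (h1 : ∀ p, δ p ≤ 1 / 2) {a : ℕ} (b x y z : ℕ)
    (ha : 1 ≤ a) (hay : a ≤ y) (P : Finset ℕ) (hP : ∀ p ∈ P, p.Prime ∧ y < p ∧ p ≤ z) (hz : 1 ≤ z)
    (hzx : z ^ 3 ≤ x) {M : ℝ} (hM : M = ∑ p ∈ P, δ p / p) (hM1 : 1 ≤ M) (g : ℕ → ℝ)
    (hg1 : ∀ n ∈ Icc 1 x, g n ≤ 1)
    (hg : ∀ n ∈ Icc 1 x, (∀ p ∈ P, ¬ p ^ 2 ∣ a * n + b) →
      g n ≤ ∏ p ∈ P.filter (fun p => p ∣ a * n + b), (1 - 2 * δ p)) :
    ∑ n ∈ Icc 1 x, g n ≤ x * (1 / y + 22 / M) := by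
  have hy1 : 1 ≤ y := ha.trans hay
  have hP1 : ∀ p ∈ P, p.Prime ∧ a < p := fun p hp => ⟨(hP p hp).1, by have := (hP p hp).2.1; omega⟩
  have hPz : P.card ≤ z := by
    have : P ⊆ Icc 1 z := fun p hp => by
      rw [mem_Icc]
      exact ⟨(hP p hp).1.one_lt.le, (hP p hp).2.2⟩
    have := Finset.card_le_card this
    simpa using this
  have hx0 : (0 : ℝ) ≤ x := Nat.cast_nonneg x
  have hzr : (1 : ℝ) ≤ z := by exact_mod_cast hz
  have hzx' : (z : ℝ) ^ 3 ≤ x := by exact_mod_cast hzx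
  have hPzr : (P.card : ℝ) ≤ z := by exact_mod_cast hPz
  have hMP : M ≤ P.card := by
    rw [hM]
    have : ∑ p ∈ P, δ p / p ≤ ∑ p ∈ P, (1 : ℝ) := by
      refine Finset.sum_le_sum fun p hp => ?_
      have hp1 : (1 : ℝ) ≤ p := by exact_mod_cast (hP p hp).1.one_lt.le
      rw [div_le_one (by linarith)]
      linarith [h1 p]
    simpa using this
  have hMz : M ≤ z := hMP.trans hPzr
  -- the points divisible by a square
  obtain ⟨B1, hB1⟩ : ∃ B1, B1 = (Icc 1 x).filter (fun n => ∃ p ∈ P, p ^ 2 ∣ a * n + b) := ⟨_, rfl⟩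
  have c1 : (B1.card : ℝ) ≤ x / y + z := by
    have h2 : B1 ⊆ P.biUnion (fun p => (Icc 1 x).filter (fun n => p ^ 2 ∣ a * n + b)) := by
      intro n hn
      rw [hB1, mem_filter] at hn
      obtain ⟨hn1, p, hp, hn2⟩ := hn
      rw [mem_biUnion]
      exact ⟨p, hp, by rw [mem_filter]; exact ⟨hn1, hn2⟩⟩
    have h3 := (Finset.card_le_card h2).trans Finset.card_biUnion_le
    have h4 : (B1.card : ℝ) ≤ ∑ p ∈ P, (((Icc 1 x).filter (fun n => p ^ 2 ∣ a * n + b)).card : ℝ) := by
      exact_mod_cast h3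
    refine h4.trans ?_
    have h5 : ∀ p ∈ P, (((Icc 1 x).filter (fun n => p ^ 2 ∣ a * n + b)).card : ℝ) ≤
        x * (1 / (p : ℝ) ^ 2) + 1 := by
      intro p hp
      have h6 := abs_le.1 (cnt (q := p ^ 2) b x (pow_pos (hP p hp).1.pos 2)
        (Nat.Coprime.pow_right 2 (cop ha (hP1 p hp).1 (hP1 p hp).2)))
      have := h6.2
      push_cast at this
      rw [mul_one_div]
      linarith
    refine (Finset.sum_le_sum h5).trans ?_
    rw [Finset.sum_add_distrib, ← Finset.mul_sum]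
    have h6 := mul_le_mul_of_nonneg_left (sum_sq_le hy1 P (fun p hp => (hP p hp).2.1)) hx0
    rw [mul_one_div] at h6
    simp only [Finset.sum_const, nsmul_eq_mul, mul_one]
    linarith
  -- the points with few prime factors
  obtain ⟨B2, hB2⟩ : ∃ B2, B2 = (Icc 1 x).filter
    (fun n => ∑ p ∈ P.filter (fun p => p ∣ a * n + b), δ p ≤ M / 2) := ⟨_, rfl⟩
  have c2 : (B2.card : ℝ) ≤ 4 * x / M + 16 * x / z := by
    have h2 := tk δ h0 (fun p => (h1 p).trans (by norm_num)) b x ha P hP1 hM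
    have h3 : (B2.card : ℝ) * (M ^ 2 / 4) ≤
        ∑ n ∈ Icc 1 x, (∑ p ∈ P.filter (fun p => p ∣ a * n + b), δ p - M) ^ 2 := by
      have h4 : ∑ n ∈ B2, (M ^ 2 / 4) ≤
          ∑ n ∈ B2, (∑ p ∈ P.filter (fun p => p ∣ a * n + b), δ p - M) ^ 2 := by
        refine Finset.sum_le_sum fun n hn => ?_
        rw [hB2, mem_filter] at hn
        nlinarith [hn.2]
      rw [Finset.sum_const, nsmul_eq_mul] at h4
      refine h4.trans (Finset.sum_le_sum_of_subset_of_nonneg ?_ (fun n _ _ => sq_nonneg _))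
      rw [hB2]
      exact Finset.filter_subset _ _
    have h4 : (P.card : ℝ) ^ 2 ≤ x / z := by
      rw [le_div_iff₀ (by linarith)]
      have h5 : (P.card : ℝ) ^ 2 ≤ (z : ℝ) ^ 2 := pow_le_pow_left₀ (Nat.cast_nonneg _) hPzr 2
      nlinarith
    have h5 : (B2.card : ℝ) * (M ^ 2 / 4) ≤ x * M + 4 * (x / z) := by linarith
    have h6 : (B2.card : ℝ) ≤ (x * M + 4 * (x / z)) / (M ^ 2 / 4) := by
      rw [le_div_iff₀ (by positivity)]
      exact h5
    refine h6.trans ?_
    have h7 : (x * M + 4 * (x / z)) / (M ^ 2 / 4) = 4 * x / M + 16 * x / z / M ^ 2 := by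
      field_simp
      ring
    rw [h7]
    have h8 : 16 * (x : ℝ) / z / M ^ 2 ≤ 16 * x / z := by
      apply div_le_self (by positivity)
      nlinarith
    linarith
  -- the rest
  have h2 : ∀ n ∈ Icc 1 x, g n ≤ Real.exp (-M) + (if n ∈ B1 then 1 else 0) + (if n ∈ B2 then 1 else 0) := by
    intro n hn
    have he : 0 < Real.exp (-M) := Real.exp_pos _
    by_cases hn1 : n ∈ B1
    · rw [if_pos hn1]
      have := hg1 n hn
      have : (0 : ℝ) ≤ if n ∈ B2 then 1 else 0 := by split_ifs <;> norm_num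
      linarith
    · by_cases hn2 : n ∈ B2
      · rw [if_neg hn1, if_pos hn2]
        have := hg1 n hn
        linarith
      · rw [if_neg hn1, if_neg hn2, add_zero, add_zero]
        rw [hB1, mem_filter, not_and] at hn1
        rw [hB2, mem_filter, not_and, not_le] at hn2
        have h3 := hn1 hn
        push Not at h3
        refine (hg n hn h3).trans ?_
        have h4 : ∏ p ∈ P.filter (fun p => p ∣ a * n + b), (1 - 2 * δ p) ≤
            ∏ p ∈ P.filter (fun p => p ∣ a * n + b), Real.exp (-(2 * δ p)) := by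
          refine Finset.prod_le_prod (fun p _ => by linarith [h1 p]) fun p _ => ?_
          linarith [Real.add_one_le_exp (-(2 * δ p))]
        refine h4.trans ?_
        rw [← Real.exp_sum]
        apply Real.exp_le_exp.2
        rw [Finset.sum_neg_distrib, ← Finset.mul_sum]
        have h5 := hn2 hn
        linarith
  refine (Finset.sum_le_sum h2).trans ?_
  rw [Finset.sum_add_distrib, Finset.sum_add_distrib, Finset.sum_boole, Finset.sum_boole,
    Finset.sum_const, Nat.card_Icc, nsmul_eq_mul]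
  have h3 : ((Icc 1 x).filter (fun n => n ∈ B1)) = B1 := by
    ext n
    simp only [mem_filter, and_iff_right_iff_imp]
    intro hn
    rw [hB1, mem_filter] at hn
    exact hn.1
  have h4 : ((Icc 1 x).filter (fun n => n ∈ B2)) = B2 := by
    ext n
    simp only [mem_filter, and_iff_right_iff_imp]
    intro hn
    rw [hB2, mem_filter] at hn
    exact hn.1
  rw [h3, h4]
  have h5 : Real.exp (-M) ≤ 1 / M := by
    rw [Real.exp_neg, ← one_div]
    apply one_div_le_one_div_of_le (by linarith)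
    linarith [Real.add_one_le_exp M]
  have h6 : ((x + 1 - 1 : ℕ) : ℝ) = x := by simp
  rw [h6]
  have h7 : (z : ℝ) ≤ x / z := by
    rw [le_div_iff₀ (by linarith)]
    nlinarith
  have h8 : (x : ℝ) / z ≤ x / M := div_le_div_of_nonneg_left hx0 (by linarith) hMz
  have h9 : 16 * (x : ℝ) / z = 16 * (x / z) := by ring
  have h10 : 4 * (x : ℝ) / M = 4 * (x / M) := by ring
  have h11 : (x : ℝ) * (1 / y + 22 / M) = x / y + 22 * (x / M) := by ring
  have h12 : (x : ℝ) * Real.exp (-M) ≤ x / M := by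
    have := mul_le_mul_of_nonneg_left h5 hx0
    rw [mul_one_div] at this
    exact this
  rw [h11]
  rw [h9, h10] at c2
  linarith

end Pool.Agent.U26Z.NL
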