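import Pool.Agent.U26Z.NL.Cube
import Pool.Agent.U26Z.NL.Tk

set_option autoImplicit false

/-!
# The correlations of a randomly flipped Liouville function, on the cube
-/

namespace Pool.Agent.U26Z.NL

open Finset

/-- the correlation sum of `f` -/
def corr (f : ℕ → ℤ) {k : ℕ} (a b : Fin k → ℕ) (x : ℕ) : ℤ :=
  ∑ n ∈ Icc 1 x, ∏ i, f (a i * n + b i)

/-- the product of the forms -/
def NN {k : ℕ} (a b : Fin k → ℕ) (n : ℕ) : ℕ := ∏ i, (a i * n + b i)

variable {k : ℕ} {a b : Fin k → ℕ}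

theorem L_ne (ha : ∀ i, 1 ≤ a i) {n : ℕ} (hn : 1 ≤ n) (i : Fin k) : a i * n + b i ≠ 0 := by
  have : 0 < a i * n := Nat.mul_pos (ha i) hn
  omega

theorem NN_ne (ha : ∀ i, 1 ≤ a i) {n : ℕ} (hn : 1 ≤ n) : NN a b n ≠ 0 :=
  Finset.prod_ne_zero_iff.2 fun i _ => L_ne ha hn i

theorem corr_eq (ha : ∀ i, 1 ≤ a i) (x : ℕ) (T : Finset ℕ) :
    ((corr (lamT T) a b x : ℤ) : ℝ) = ∑ n ∈ Icc 1 x,
      ((cm (fun _ => -1) (NN a b n) : ℤ) : ℝ) * ∏ p ∈ T, (-1 : ℝ) ^ (NN a b n).factorization p := by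
  unfold corr
  push_cast
  refine Finset.sum_congr rfl fun n hn => ?_
  rw [mem_Icc] at hn
  have h1 : ∏ i, lamT T (a i * n + b i) = lamT T (NN a b n) := by
    unfold lamT NN
    rw [cm_prod _ _ _ (fun i _ => L_ne ha hn.1 i)]
  have h2 : ∏ i, ((lamT T (a i * n + b i) : ℤ) : ℝ) = ((lamT T (NN a b n) : ℤ) : ℝ) := by
    rw [← h1]
    push_cast
    rfl
  rw [h2, lamT_eq]
  push_cast
  rfl

theorem lam_abs' (n : ℕ) : |((cm (fun _ => -1) n : ℤ) : ℝ)| = 1 := by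
  have := lam_abs n
  rw [← Int.cast_abs, this, Int.cast_one]

theorem sgn_abs (T : Finset ℕ) (v : ℕ → ℕ) : |∏ p ∈ T, (-1 : ℝ) ^ v p| = 1 := by
  rw [Finset.abs_prod]
  refine Finset.prod_eq_one fun p _ => ?_
  rw [abs_pow, abs_neg, abs_one, one_pow]

/-- the number of `n ≤ x` for which `p` divides one of the forms -/
theorem cntN (ha : ∀ i, 1 ≤ a i) (x : ℕ) {p : ℕ} (hp : p.Prime) (hap : ∀ i, a i < p) :
    (((Icc 1 x).filter (fun n => p ∣ NN a b n)).card : ℝ) ≤ k * ((x : ℝ) / p + 1) := by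
  classical
  have h2 : (Icc 1 x).filter (fun n => p ∣ NN a b n) ⊆
      (univ : Finset (Fin k)).biUnion (fun i => (Icc 1 x).filter (fun n => p ∣ a i * n + b i)) := by
    intro n hn
    rw [mem_filter] at hn
    rw [mem_biUnion]
    obtain ⟨i, hi, h3⟩ := (Prime.dvd_finset_prod_iff hp.prime _).1 hn.2
    exact ⟨i, hi, by rw [mem_filter]; exact ⟨hn.1, h3⟩⟩
  have h3 := (Finset.card_le_card h2).trans Finset.card_biUnion_le
  have h4 : (((Icc 1 x).filter (fun n => p ∣ NN a b n)).card : ℝ) ≤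
      ∑ i, (((Icc 1 x).filter (fun n => p ∣ a i * n + b i)).card : ℝ) := by
    exact_mod_cast h3
  refine h4.trans ?_
  have h5 : ∀ i ∈ (univ : Finset (Fin k)), (((Icc 1 x).filter (fun n => p ∣ a i * n + b i)).card : ℝ) ≤
      (x : ℝ) / p + 1 := by
    intro i _
    have := (abs_le.1 (cnt (b i) x hp.pos (cop (ha i) hp (hap i)))).2
    linarith
  refine (Finset.sum_le_sum h5).trans ?_
  rw [Finset.sum_const, nsmul_eq_mul, Finset.card_univ, Fintype.card_fin]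

/-- bounded differences -/
theorem bdiff (ha : ∀ i, 1 ≤ a i) (x : ℕ) {p : ℕ} (hp : p.Prime) (hap : ∀ i, a i < p)
    (T : Finset ℕ) : |((corr (lamT (insert p T)) a b x : ℤ) : ℝ) - ((corr (lamT T) a b x : ℤ) : ℝ)| ≤
      2 * k * ((x : ℝ) / p + 1) := by
  classical
  by_cases hpT : p ∈ T
  · rw [Finset.insert_eq_of_mem hpT, sub_self, abs_zero]
    positivity
  · rw [corr_eq ha, corr_eq ha, ← Finset.sum_sub_distrib]
    have h1 : ∀ n ∈ Icc 1 x, |((cm (fun _ => -1) (NN a b n) : ℤ) : ℝ) *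
        ∏ q ∈ insert p T, (-1 : ℝ) ^ (NN a b n).factorization q -
        ((cm (fun _ => -1) (NN a b n) : ℤ) : ℝ) * ∏ q ∈ T, (-1 : ℝ) ^ (NN a b n).factorization q| ≤
        2 * (if p ∣ NN a b n then 1 else 0) := by
      intro n _
      rw [Finset.prod_insert hpT]
      have h2 : ((cm (fun _ => -1) (NN a b n) : ℤ) : ℝ) *
          ((-1) ^ (NN a b n).factorization p * ∏ q ∈ T, (-1 : ℝ) ^ (NN a b n).factorization q) -
          ((cm (fun _ => -1) (NN a b n) : ℤ) : ℝ) * ∏ q ∈ T, (-1 : ℝ) ^ (NN a b n).factorization q =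
          ((cm (fun _ => -1) (NN a b n) : ℤ) : ℝ) * (∏ q ∈ T, (-1 : ℝ) ^ (NN a b n).factorization q) *
          ((-1) ^ (NN a b n).factorization p - 1) := by ring
      rw [h2, abs_mul, abs_mul, lam_abs', sgn_abs, one_mul, one_mul]
      split_ifs with h3
      · rcases neg_one_pow_eq_or ℝ ((NN a b n).factorization p) with h4 | h4
        · rw [h4]; norm_num
        · rw [h4]; norm_num
      · rw [Nat.factorization_eq_zero_of_not_dvd h3, pow_zero, sub_self, abs_zero, mul_zero]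
    refine (Finset.abs_sum_le_sum_abs _ _).trans ((Finset.sum_le_sum h1).trans ?_)
    rw [← Finset.mul_sum, Finset.sum_boole]
    have := cntN (b := b) ha x hp hap
    linarith

/-- the noise factor -/
noncomputable def nf (δ : ℝ) (v : ℕ) : ℝ := 1 - δ + δ * (-1) ^ v

theorem nf_nonneg {δ : ℝ} (h0 : 0 ≤ δ) (h1 : δ ≤ 1 / 2) (v : ℕ) : 0 ≤ nf δ v := by
  unfold nf
  rcases neg_one_pow_eq_or ℝ v with h | h <;> rw [h] <;> linarith

theorem nf_le {δ : ℝ} (h0 : 0 ≤ δ) (v : ℕ) : nf δ v ≤ 1 := by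
  unfold nf
  rcases neg_one_pow_eq_or ℝ v with h | h <;> rw [h] <;> linarith

theorem nf_one (δ : ℝ) : nf δ 1 = 1 - 2 * δ := by
  unfold nf
  ring

/-- the conditional mean -/
theorem condMean (δ : ℕ → ℝ) (h0 : ∀ p, 0 ≤ δ p) (h1 : ∀ p, δ p ≤ 1 / 2) (ha : ∀ i, 1 ≤ a i) (x : ℕ)
    (T₁ F : Finset ℕ) (hd : Disjoint T₁ F) :
    |EE δ F (fun T => ((corr (lamT (T₁ ∪ T)) a b x : ℤ) : ℝ))| ≤
      ∑ n ∈ Icc 1 x, ∏ p ∈ F, nf (δ p) ((NN a b n).factorization p) := by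
  have h2 : EE δ F (fun T => ((corr (lamT (T₁ ∪ T)) a b x : ℤ) : ℝ)) =
      ∑ n ∈ Icc 1 x, ((cm (fun _ => -1) (NN a b n) : ℤ) : ℝ) *
        (∏ p ∈ T₁, (-1 : ℝ) ^ (NN a b n).factorization p) *
        ∏ p ∈ F, nf (δ p) ((NN a b n).factorization p) := by
    have h3 : ∀ T, T ⊆ F → ((corr (lamT (T₁ ∪ T)) a b x : ℤ) : ℝ) =
        ∑ n ∈ Icc 1 x, ((cm (fun _ => -1) (NN a b n) : ℤ) : ℝ) *
        (∏ p ∈ T₁, (-1 : ℝ) ^ (NN a b n).factorization p) *
        ∏ p ∈ T, (-1 : ℝ) ^ (NN a b n).factorization p := by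
      intro T hT
      rw [corr_eq ha]
      refine Finset.sum_congr rfl fun n _ => ?_
      rw [Finset.prod_union (Finset.disjoint_of_subset_right hT hd), mul_assoc]
    have h4 : EE δ F (fun T => ((corr (lamT (T₁ ∪ T)) a b x : ℤ) : ℝ)) =
        EE δ F (fun T => ∑ n ∈ Icc 1 x, ((cm (fun _ => -1) (NN a b n) : ℤ) : ℝ) *
        (∏ p ∈ T₁, (-1 : ℝ) ^ (NN a b n).factorization p) *
        ∏ p ∈ T, (-1 : ℝ) ^ (NN a b n).factorization p) := by
      unfold EE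
      refine Finset.sum_congr rfl fun T hT => ?_
      beta_reduce
      rw [h3 T (Finset.mem_powerset.1 hT)]
    rw [h4, EE_sum]
    refine Finset.sum_congr rfl fun n _ => ?_
    rw [EE_smul, EE_prod]
    rfl
  rw [h2]
  refine (Finset.abs_sum_le_sum_abs _ _).trans (le_of_eq ?_)
  refine Finset.sum_congr rfl fun n _ => ?_
  rw [abs_mul, abs_mul, lam_abs', sgn_abs, one_mul, one_mul,
    abs_of_nonneg (Finset.prod_nonneg fun p _ => nf_nonneg (h0 p) (h1 p) _)]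

/-- a prime divisor of one form only -/
theorem val_one (ha : ∀ i, 1 ≤ a i) (hab : ∀ i j, i ≠ j → a i * b j ≠ a j * b i) {y : ℕ}
    (hy : ∀ i j, a i ≤ y ∧ a i * b j ≤ y) {n p : ℕ} (hn : 1 ≤ n) (hp : p.Prime) (hyp : y < p)
    (i : Fin k) (h1 : p ∣ a i * n + b i) (h2 : ¬ p ^ 2 ∣ a i * n + b i) :
    (NN a b n).factorization p = 1 := by
  unfold NN
  rw [Nat.factorization_prod (fun j _ => L_ne ha hn j), Finset.sum_apply']
  rw [Finset.sum_eq_single i]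
  · have h3 : 1 ≤ (a i * n + b i).factorization p :=
      (hp.dvd_iff_one_le_factorization (L_ne ha hn i)).1 h1
    have h4 : ¬ 2 ≤ (a i * n + b i).factorization p := fun h =>
      h2 ((hp.pow_dvd_iff_le_factorization (L_ne ha hn i)).2 h)
    omega
  · intro j _ hj
    apply Nat.factorization_eq_zero_of_not_dvd
    intro h3
    have h4 : (p : ℤ) ∣ (a i : ℤ) * b j - a j * b i := by
      have h5 : (p : ℤ) ∣ (a i * n + b i : ℤ) := by exact_mod_cast h1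
      have h6 : (p : ℤ) ∣ (a j * n + b j : ℤ) := by exact_mod_cast h3
      have h7 := (h6.mul_left (a i : ℤ)).sub (h5.mul_left (a j : ℤ))
      have e : (a i : ℤ) * b j - a j * b i = a i * (a j * n + b j) - a j * (a i * n + b i) := by ring
      rw [e]
      exact h7
    have h5 : |(a i : ℤ) * b j - a j * b i| < p := by
      have h6 := (hy i j).2
      have h7 := (hy j i).2
      have h8 : ((a i * b j : ℕ) : ℤ) ≤ y := by exact_mod_cast h6
      have h9 : ((a j * b i : ℕ) : ℤ) ≤ y := by exact_mod_cast h7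
      have h10 : (0 : ℤ) ≤ ((a i * b j : ℕ) : ℤ) := Int.natCast_nonneg _
      have h11 : (0 : ℤ) ≤ ((a j * b i : ℕ) : ℤ) := Int.natCast_nonneg _
      have h12 : (y : ℤ) < p := by exact_mod_cast hyp
      push_cast at h8 h9 h10 h11
      rw [abs_lt]
      constructor <;> linarith
    have h6 := Int.eq_zero_of_abs_lt_dvd h4 h5
    apply hab i j (Ne.symm hj)
    have h7 : (a i : ℤ) * b j = a j * b i := by linarith
    exact_mod_cast h7
  · intro h3
    exact absurd (Finset.mem_univ i) h3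

/-- **the main estimate on the cube** -/
theorem cube (δ : ℕ → ℝ) (h0 : ∀ p, 0 ≤ δ p) (h1 : ∀ p, δ p ≤ 1 / 2) (hk : 0 < k)
    (ha : ∀ i, 1 ≤ a i) (hab : ∀ i j, i ≠ j → a i * b j ≠ a j * b i) {x y z A : ℕ}
    (hy1 : 1 ≤ y) (hy : ∀ i j, a i ≤ y ∧ a i * b j ≤ y) (hyx : y ≤ x) (hz : 1 ≤ z) (hzx : z ^ 3 ≤ x) {M : ℝ}
    (hM : M = ∑ p ∈ (Icc 1 z).filter (fun p => p.Prime ∧ y < p), δ p / p) (hM1 : 1 ≤ M)
    (hA : 1 ≤ A) {ε : ℝ} (hε : 0 < ε) (hsm : 1 / y + 22 / M ≤ ε / 2) :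
    EE δ ((Icc 1 (A * x)).filter Nat.Prime)
      (fun T => if ε * x ≤ |((corr (lamT T) a b x : ℤ) : ℝ)| then 1 else 0) ≤
      2 * Real.exp (-(ε ^ 2 / (64 * k ^ 2 * (1 + A)) * y)) := by
  classical
  have h1' : ∀ p, δ p ≤ 1 := fun p => (h1 p).trans (by norm_num)
  have hx1 : 1 ≤ x := hy1.trans hyx
  have hx0 : (0 : ℝ) < x := by exact_mod_cast hx1
  have hy0 : (0 : ℝ) < y := by exact_mod_cast hy1
  have hyx' : (y : ℝ) ≤ x := by exact_mod_cast hyx
  have hk0 : (0 : ℝ) < k := by exact_mod_cast hk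
  have hA0 : (1 : ℝ) ≤ A := by exact_mod_cast hA
  obtain ⟨F₁, hF₁⟩ : ∃ F₁, F₁ = (Icc 1 (A * x)).filter (fun p => p.Prime ∧ p ≤ y) := ⟨_, rfl⟩
  obtain ⟨F₂, hF₂⟩ : ∃ F₂, F₂ = (Icc 1 (A * x)).filter (fun p => p.Prime ∧ y < p) := ⟨_, rfl⟩
  have hU : (Icc 1 (A * x)).filter Nat.Prime = F₁ ∪ F₂ := by
    rw [hF₁, hF₂]
    ext p
    simp only [mem_filter, mem_union]
    constructor
    · rintro ⟨h2, h3⟩
      rcases le_or_gt p y with h4 | h4
      · exact Or.inl ⟨h2, h3, h4⟩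
      · exact Or.inr ⟨h2, h3, h4⟩
    · rintro (⟨h2, h3, h4⟩ | ⟨h2, h3, h4⟩) <;> exact ⟨h2, h3⟩
  have hdis : Disjoint F₁ F₂ := by
    rw [Finset.disjoint_left, hF₁, hF₂]
    intro p hp hp'
    rw [mem_filter] at hp hp'
    omega
  have hmF₂ : ∀ p ∈ F₂, p.Prime ∧ y < p := fun p hp => by
    rw [hF₂, mem_filter] at hp
    exact hp.2
  rw [hU]
  refine EE_union h0 h1' F₁ hdis _ fun T₁ hT₁ => ?_
  obtain ⟨V, hV⟩ : ∃ V : ℝ, V = 8 * k ^ 2 * (1 + A) * x ^ 2 / y := ⟨_, rfl⟩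
  have hV0 : 0 < V := by rw [hV]; positivity
  have hbd : BD (fun p => 2 * k * ((x : ℝ) / p + 1)) F₂
      (fun T => ((corr (lamT (T₁ ∪ T)) a b x : ℤ) : ℝ)) := by
    intro p hp T _
    have h2 := hmF₂ p hp
    have h3 := bdiff (a := a) (b := b) ha x h2.1 (fun i => lt_of_le_of_lt (hy i i).1 h2.2) (T₁ ∪ T)
    simp only [Finset.union_insert]
    exact h3
  have hcV : ∑ p ∈ F₂, (2 * k * ((x : ℝ) / p + 1)) ^ 2 ≤ V := by
    have h2 : ∀ p ∈ F₂, (2 * k * ((x : ℝ) / p + 1)) ^ 2 ≤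
        8 * k ^ 2 * x ^ 2 * (1 / (p : ℝ) ^ 2) + 8 * k ^ 2 := by
      intro p hp
      have h3 : ((x : ℝ) / p + 1) ^ 2 ≤ 2 * (x ^ 2 * (1 / (p : ℝ) ^ 2)) + 2 := by
        have h4 : (x : ℝ) ^ 2 * (1 / (p : ℝ) ^ 2) = ((x : ℝ) / p) ^ 2 := by
          rw [div_pow]; ring
        rw [h4]
        nlinarith [sq_nonneg ((x : ℝ) / p - 1)]
      have h4 : (0 : ℝ) ≤ 4 * k ^ 2 := by positivity
      have h5 := mul_le_mul_of_nonneg_left h3 h4
      calc (2 * k * ((x : ℝ) / p + 1)) ^ 2 = 4 * k ^ 2 * ((x : ℝ) / p + 1) ^ 2 := by ring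
        _ ≤ _ := h5
        _ = _ := by ring
    refine (Finset.sum_le_sum h2).trans ?_
    rw [Finset.sum_add_distrib, ← Finset.mul_sum, Finset.sum_const, nsmul_eq_mul]
    have h3 := sum_sq_le hy1 F₂ (fun p hp => (hmF₂ p hp).2)
    have h4 : (F₂.card : ℝ) ≤ A * x := by
      have h5 : F₂.card ≤ A * x := by
        rw [hF₂]
        refine (Finset.card_filter_le _ _).trans ?_
        simp
      exact_mod_cast h5
    have h5 : (A : ℝ) * x ≤ A * x ^ 2 / y := by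
      rw [le_div_iff₀ hy0]
      have h6 : (x : ℝ) * y ≤ x * x := mul_le_mul_of_nonneg_left hyx' hx0.le
      nlinarith
    have h6 : 8 * (k : ℝ) ^ 2 * x ^ 2 * ∑ p ∈ F₂, 1 / (p : ℝ) ^ 2 ≤ 8 * k ^ 2 * x ^ 2 * (1 / y) :=
      mul_le_mul_of_nonneg_left h3 (by positivity)
    have h7 : (F₂.card : ℝ) * (8 * k ^ 2) ≤ (A * x ^ 2 / y) * (8 * k ^ 2) :=
      mul_le_mul_of_nonneg_right (h4.trans h5) (by positivity)
    refine (add_le_add h6 h7).trans (le_of_eq ?_)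
    rw [hV]
    ring
  have hE : |EE δ F₂ (fun T => ((corr (lamT (T₁ ∪ T)) a b x : ℤ) : ℝ))| ≤ ε * x / 2 := by
    refine (condMean δ h0 h1 ha x T₁ F₂ (Finset.disjoint_of_subset_left hT₁ hdis)).trans ?_
    have h2 : ∑ n ∈ Icc 1 x, ∏ p ∈ F₂, nf (δ p) ((NN a b n).factorization p) ≤
        x * (1 / y + 22 / M) := by
      refine smallMean δ h0 h1 (a := a ⟨0, hk⟩) (b ⟨0, hk⟩) x y z (ha _) (hy _ ⟨0, hk⟩).1
        ((Icc 1 z).filter (fun p => p.Prime ∧ y < p)) ?_ hz hzx hM hM1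
        (fun n => ∏ p ∈ F₂, nf (δ p) ((NN a b n).factorization p)) ?_ ?_
      · intro p hp
        rw [mem_filter, mem_Icc] at hp
        exact ⟨hp.2.1, hp.2.2, hp.1.2⟩
      · intro n _
        exact Finset.prod_le_one (fun p _ => nf_nonneg (h0 p) (h1 p) _) (fun p _ => nf_le (h0 p) _)
      · intro n hn h3
        rw [mem_Icc] at hn
        obtain ⟨Q, hQ⟩ : ∃ Q, Q = ((Icc 1 z).filter (fun p => p.Prime ∧ y < p)).filter
          (fun p => p ∣ a ⟨0, hk⟩ * n + b ⟨0, hk⟩) := ⟨_, rfl⟩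
        rw [← hQ]
        have hQF : Q ⊆ F₂ := by
          intro p hp
          rw [hQ, mem_filter, mem_filter, mem_Icc] at hp
          rw [hF₂, mem_filter, mem_Icc]
          refine ⟨⟨hp.1.1.1, ?_⟩, hp.1.2⟩
          have h4 : z ≤ z ^ 3 := Nat.le_self_pow (by norm_num) z
          have h5 : x ≤ A * x := Nat.le_mul_of_pos_left x hA
          omega
        have h4 : ∏ p ∈ F₂, nf (δ p) ((NN a b n).factorization p) ≤
            ∏ p ∈ Q, nf (δ p) ((NN a b n).factorization p) := by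
          rw [← Finset.prod_sdiff hQF]
          have h5 : ∏ p ∈ F₂ \ Q, nf (δ p) ((NN a b n).factorization p) ≤ 1 :=
            Finset.prod_le_one (fun p _ => nf_nonneg (h0 p) (h1 p) _) (fun p _ => nf_le (h0 p) _)
          have h6 : 0 ≤ ∏ p ∈ Q, nf (δ p) ((NN a b n).factorization p) :=
            Finset.prod_nonneg fun p _ => nf_nonneg (h0 p) (h1 p) _
          nlinarith
        refine h4.trans (le_of_eq ?_)
        refine Finset.prod_congr rfl fun p hp => ?_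
        have hp' := hp
        rw [hQ, mem_filter, mem_filter] at hp'
        have h5 : (NN a b n).factorization p = 1 := by
          refine val_one ha hab hy hn.1 hp'.1.2.1 hp'.1.2.2 ⟨0, hk⟩ hp'.2 (h3 p ?_)
          rw [mem_filter]
          exact hp'.1
        rw [h5, nf_one]
    refine h2.trans ?_
    have h3 := mul_le_mul_of_nonneg_left hsm hx0.le
    linarith
  have h2 := tail2 h0 h1' (fun p => 2 * k * ((x : ℝ) / p + 1)) F₂ _ hbd hV0 hcV
    (show 0 ≤ ε * x / 2 by positivity) hE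
  have h3 : 2 * (ε * x / 2) = ε * x := by ring
  rw [h3] at h2
  refine h2.trans (le_of_eq ?_)
  congr 3
  rw [hV]
  field_simp
  ring

end Pool.Agent.U26Z.NL
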