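import Pool.Agent.U26Z.NL.Tr

set_option autoImplicit false

/-!
# Summable noise
-/

namespace Pool.Agent.U26Z.NL

open Finset MeasureTheory ProbabilityTheory Filter Topology

variable {Ω : Type*} [MeasurableSpace Ω] {μ : Measure Ω} [IsProbabilityMeasure μ] {ξ : ℕ → Ω → ℤ}
  {δ : ℕ → ℝ}

open Classical in
omit [IsProbabilityMeasure μ] in
theorem as_summable (hm : ∀ p, Measurable (ξ p))
    (h0 : ∀ p, 0 ≤ δ p) (hμ : ∀ p, μ {ω | ξ p ω = -1} = ENNReal.ofReal (δ p))
    (hs : Summable (fun p : ℕ => if p.Prime then δ p / p else 0)) :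
    ∀ᵐ ω ∂μ, Summable (fun p : ℕ => if p.Prime ∧ ξ p ω = -1 then (1 : ℝ) / p else 0) := by
  obtain ⟨g, hg⟩ : ∃ g : ℕ → Ω → ENNReal, g = fun p => if p.Prime then
    {ω | ξ p ω = -1}.indicator (fun _ => ENNReal.ofReal (1 / p)) else 0 := ⟨_, rfl⟩
  have hms : ∀ p, MeasurableSet {ω | ξ p ω = -1} := fun p => hm p (MeasurableSet.singleton (-1))
  have hgm : ∀ p, Measurable (g p) := by
    intro p
    rw [hg]
    simp only
    split_ifs
    · exact measurable_const.indicator (hms p)
    · exact measurable_zero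
  have hint : ∀ p, ∫⁻ ω, g p ω ∂μ = ENNReal.ofReal (if p.Prime then δ p / p else 0) := by
    intro p
    rw [hg]
    simp only
    split_ifs with hp
    · rw [lintegral_indicator (hms p), lintegral_const, Measure.restrict_apply MeasurableSet.univ,
        Set.univ_inter, hμ, ← ENNReal.ofReal_mul (by positivity)]
      congr 1
      ring
    · simp
  have h2 : ∫⁻ ω, ∑' p, g p ω ∂μ ≠ ⊤ := by
    rw [lintegral_tsum (fun p => (hgm p).aemeasurable)]
    simp only [hint]
    exact hs.tsum_ofReal_ne_top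
  have h3 := ae_lt_top (Measurable.tsum (fun p => hgm p)) h2
  filter_upwards [h3] with ω hω
  have h4 := ENNReal.summable_toReal hω.ne
  refine h4.congr fun p => ?_
  rw [hg]
  simp only
  by_cases hp : p.Prime
  · by_cases h5 : ξ p ω = -1
    · rw [if_pos hp, if_pos ⟨hp, h5⟩, Set.indicator_of_mem (show ω ∈ {ω | ξ p ω = -1} from h5),
        ENNReal.toReal_ofReal (by positivity)]
    · rw [if_pos hp, if_neg (fun h => h5 h.2),
        Set.indicator_of_notMem (show ω ∉ {ω | ξ p ω = -1} from h5)]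
      simp
  · rw [if_neg hp, if_neg (fun h => hp h.1)]
    simp

omit [IsProbabilityMeasure μ] in
theorem sm_main (hm : ∀ p, Measurable (ξ p)) (hξ : ∀ p ω, ξ p ω = 1 ∨ ξ p ω = -1)
    (h0 : ∀ p, 0 ≤ δ p) (hμ : ∀ p, μ {ω | ξ p ω = -1} = ENNReal.ofReal (δ p))
    (hs : Summable (fun p : ℕ => if p.Prime then δ p / p else 0)) :
    ∀ᵐ ω ∂μ, ∀ k : ℕ, (Chowla (noisy ξ ω) k ↔ Chowla (cm (fun _ => -1)) k) := by
  classical
  filter_upwards [as_summable hm h0 hμ hs] with ω hω k
  have h1 : noisy ξ ω = cm (fun p => -ξ p ω) := rfl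
  have ht : ∀ p, (fun p => -ξ p ω) p = 1 ∨ (fun p => -ξ p ω) p = -1 := by
    intro p
    rcases hξ p ω with h | h
    · exact Or.inr (by simp [h])
    · exact Or.inl (by simp [h])
  have hne : ∀ p, (-1 ≠ -ξ p ω ↔ ξ p ω = -1) := by
    intro p
    rcases hξ p ω with h | h <;> rw [h] <;> norm_num
  rw [h1]
  constructor
  · intro h
    refine transfer ht (fun _ => Or.inr rfl) ?_ h
    refine hω.congr fun p => ?_
    simp only [ne_comm (a := -ξ p ω) (b := (-1 : ℤ)), hne]
  · intro h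
    refine transfer (fun _ => Or.inr rfl) ht ?_ h
    refine hω.congr fun p => ?_
    simp only [hne]

end Pool.Agent.U26Z.NL
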