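import Pool.Agent.U26Z.NL.AS
import Pool.Agent.Cov.PNT

set_option autoImplicit false

/-!
# The transfer principle: changing a completely multiplicative function at a thin set of primes
-/

namespace Pool.Agent.U26Z.NL

open Finset MeasureTheory ProbabilityTheory Filter Topology

theorem pi_small : Tendsto (fun n : ℕ => (((Icc 1 n).filter Nat.Prime).card : ℝ) / n) atTop (𝓝 0) := by
  have h := Pool.Agent.Cov.PNT.pi_tendsto.comp cast_tend
  have h2 : Tendsto (fun n : ℕ => (Real.log n)⁻¹) atTop (𝓝 0) :=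
    tendsto_inv_atTop_zero.comp (Real.tendsto_log_atTop.comp cast_tend)
  have h3 := h.mul h2
  rw [mul_zero] at h3
  refine h3.congr' ?_
  filter_upwards [eventually_gt_atTop 1] with n hn
  simp only [Function.comp_apply, Nat.floor_natCast]
  have hl : 0 < Real.log n := Real.log_pos (by exact_mod_cast hn)
  have hn0 : (0 : ℝ) < n := by exact_mod_cast (by omega : 0 < n)
  have h4 : Nat.primeCounting n = ((Icc 1 n).filter Nat.Prime).card := by
    unfold Nat.primeCounting Nat.primeCounting'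
    rw [Nat.count_eq_card_filter_range]
    congr 1
    ext p
    simp only [mem_filter, mem_range, mem_Icc]
    constructor
    · rintro ⟨h5, h6⟩
      exact ⟨⟨h6.one_lt.le, by omega⟩, h6⟩
    · rintro ⟨h5, h6⟩
      exact ⟨by omega, h6⟩
  rw [← h4]
  field_simp

/-- few `n` with a high prime power dividing a form -/
theorem cnt_pow {a b x q A : ℕ} (ha : 1 ≤ a) (hA : a + b ≤ A) (hq : 0 < q) :
    (((Icc 1 x).filter (fun n => q ∣ a * n + b)).card : ℝ) ≤ A * x / q := by
  have h1 : ((Icc 1 x).filter (fun n => q ∣ a * n + b)).card ≤ (Icc 1 (A * x / q)).card := by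
    apply Finset.card_le_card_of_injOn (fun n => (a * n + b) / q)
    · intro n hn
      simp only [coe_filter, Set.mem_setOf_eq, mem_Icc] at hn
      simp only [coe_Icc, Set.mem_Icc]
      have h2 : 0 < a * n + b := by
        have : 0 < a * n := Nat.mul_pos ha hn.1.1
        omega
      refine ⟨Nat.div_pos (Nat.le_of_dvd h2 hn.2) hq, Nat.div_le_div_right ?_⟩
      have h3 : a * n ≤ a * x := Nat.mul_le_mul_left _ hn.1.2
      have h4 : b ≤ b * x := Nat.le_mul_of_pos_right _ (by omega)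
      have h5 : (a + b) * x ≤ A * x := Nat.mul_le_mul_right _ hA
      rw [add_mul] at h5
      omega
    · intro n hn m hm hnm
      simp only [coe_filter, Set.mem_setOf_eq, mem_Icc] at hn hm
      have h2 : a * n + b = a * m + b := by
        have h3 := Nat.div_mul_cancel hn.2
        have h4 := Nat.div_mul_cancel hm.2
        have hnm' : (a * n + b) / q = (a * m + b) / q := hnm
        rw [← h3, ← h4, hnm']
      exact Nat.eq_of_mul_eq_mul_left ha (by omega)
  rw [Nat.card_Icc, Nat.add_sub_cancel] at h1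
  have h2 : (((Icc 1 x).filter (fun n => q ∣ a * n + b)).card : ℝ) ≤ ((A * x / q : ℕ) : ℝ) := by
    exact_mod_cast h1
  refine h2.trans (Nat.cast_div_le.trans (le_of_eq ?_))
  push_cast
  ring

theorem sum_blocks (F : ℕ → ℝ) (Q X : ℕ) :
    ∑ n ∈ Icc 1 (Q * X), F n = ∑ c ∈ Icc 1 Q, ∑ m ∈ range X, F (Q * m + c) := by
  rw [Finset.sum_comm]
  induction X with
  | zero => simp
  | succ X ih =>
    rw [Finset.sum_range_succ, ← ih]
    have h1 : Icc 1 (Q * (X + 1)) = Icc 1 (Q * X) ∪ (Icc 1 Q).image (fun c => Q * X + c) := by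
      ext n
      simp only [mem_Icc, mem_union, mem_image]
      constructor
      · rintro ⟨h2, h3⟩
        rcases le_or_gt n (Q * X) with h4 | h4
        · exact Or.inl ⟨h2, h4⟩
        · rw [mul_add, mul_one] at h3
          exact Or.inr ⟨n - Q * X, ⟨by omega, by omega⟩, by omega⟩
      · rintro (⟨h2, h3⟩ | ⟨c, ⟨h2, h3⟩, rfl⟩)
        · rw [mul_add, mul_one]
          exact ⟨h2, by omega⟩
        · rw [mul_add, mul_one]
          exact ⟨by omega, by omega⟩
    rw [h1, Finset.sum_union, Finset.sum_image]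
    · intro c _ d _ hcd
      have hcd' : Q * X + c = Q * X + d := hcd
      omega
    · rw [Finset.disjoint_left]
      intro n hn hn'
      rw [mem_Icc] at hn
      rw [mem_image] at hn'
      obtain ⟨c, hc, rfl⟩ := hn'
      rw [mem_Icc] at hc
      omega

theorem sum_shift (F : ℕ → ℝ) (X : ℕ) : ∑ m ∈ range X, F (m + 1) = ∑ n ∈ Icc 1 X, F n := by
  induction X with
  | zero => simp
  | succ X ih => rw [Finset.sum_range_succ, ih, Finset.sum_Icc_succ_top (by omega)]

/-- equality of the valuations -/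
theorem fac_eq {p R m n : ℕ} (hp : p.Prime) (hm : m ≠ 0) (hn : n ≠ 0) (h : m ≡ n [MOD p ^ R])
    (hR : ¬ p ^ R ∣ m) : m.factorization p = n.factorization p := by
  have hR' : ¬ p ^ R ∣ n := fun h' => hR ((Nat.ModEq.dvd_iff h dvd_rfl).2 h')
  have key : ∀ e, e ≤ R → (p ^ e ∣ m ↔ p ^ e ∣ n) := fun e he =>
    Nat.ModEq.dvd_iff h (pow_dvd_pow p he)
  have h1 : m.factorization p < R := by
    by_contra hcon
    exact hR ((hp.pow_dvd_iff_le_factorization hm).2 (not_lt.1 hcon))
  have h2 : n.factorization p < R := by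
    by_contra hcon
    exact hR' ((hp.pow_dvd_iff_le_factorization hn).2 (not_lt.1 hcon))
  apply le_antisymm
  · have h3 := (key (m.factorization p) h1.le).1 (Nat.ordProj_dvd m p)
    exact (hp.pow_dvd_iff_le_factorization hn).1 h3
  · have h3 := (key (n.factorization p) h2.le).2 (Nat.ordProj_dvd n p)
    exact (hp.pow_dvd_iff_le_factorization hm).1 h3

open Classical in
theorem transfer {s t : ℕ → ℤ} (hs : ∀ p, s p = 1 ∨ s p = -1) (ht : ∀ p, t p = 1 ∨ t p = -1)
    (hsum : Summable (fun p : ℕ => if p.Prime ∧ s p ≠ t p then (1 : ℝ) / p else 0)) {k : ℕ}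
    (hC : Chowla (cm s) k) : Chowla (cm t) k := by
  intro a b hab
  obtain ⟨ha, hab2⟩ := hab
  obtain ⟨A, hA1, hA2, hA3⟩ := exists_bound a b
  have hA0 : (1 : ℝ) ≤ A := by exact_mod_cast hA1
  have hs1 : ∀ p, |s p| = 1 := fun p => by rcases hs p with h | h <;> rw [h] <;> norm_num
  have ht1 : ∀ p, |t p| = 1 := fun p => by rcases ht p with h | h <;> rw [h] <;> norm_num
  apply tend_of_eps (S := fun x => ((corr (cm t) a b x : ℤ) : ℝ))
  intro m₀
  obtain ⟨ε, hε⟩ : ∃ ε : ℝ, ε = 1 / ((m₀ : ℝ) + 1) := ⟨_, rfl⟩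
  have hε0 : 0 < ε := by rw [hε]; positivity
  rw [← hε]
  obtain ⟨η, hη⟩ : ∃ η : ℝ, η = ε / (8 * (k + 1)) := ⟨_, rfl⟩
  have hη0 : 0 < η := by rw [hη]; positivity
  -- the choice of `y`
  have hf0 : ∀ p : ℕ, 0 ≤ (if p.Prime ∧ s p ≠ t p then (1 : ℝ) / p else 0) := by
    intro p
    split_ifs
    · positivity
    · exact le_rfl
  obtain ⟨y₁, hy₁⟩ : ∃ y₁ : ℕ, ∀ F : Finset ℕ, (∀ p ∈ F, y₁ ≤ p) →
      ∑ p ∈ F, (if p.Prime ∧ s p ≠ t p then (1 : ℝ) / p else 0) ≤ η := by
    obtain ⟨F₀, hF₀⟩ := summable_iff_vanishing_norm.1 hsum η hη0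
    refine ⟨F₀.sup id + 1, fun F hF => ?_⟩
    have h2 : Disjoint F F₀ := by
      rw [Finset.disjoint_left]
      intro p hp hp'
      have h3 := hF p hp
      have h4 : p ≤ F₀.sup id := Finset.le_sup (f := id) hp'
      omega
    have h3 := hF₀ F h2
    rw [Real.norm_eq_abs] at h3
    exact ((le_abs_self _).trans h3.le)
  obtain ⟨y, hy⟩ : ∃ y, y = max y₁ A := ⟨_, rfl⟩
  have hyy : y₁ ≤ y := by rw [hy]; exact le_max_left _ _
  have hyA : A ≤ y := by rw [hy]; exact le_max_right _ _
  obtain ⟨T, hT⟩ : ∃ T, T = (Icc 1 y).filter (fun p => p.Prime ∧ s p ≠ t p) := ⟨_, rfl⟩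
  -- the choice of `R`
  obtain ⟨R, hR⟩ : ∃ R : ℕ, (T.card : ℝ) * k * A / 2 ^ R ≤ η := by
    have h2 : Tendsto (fun R : ℕ => (T.card : ℝ) * k * A / 2 ^ R) atTop (𝓝 0) :=
      tendsto_const_nhds.div_atTop (tendsto_pow_atTop_atTop_of_one_lt (by norm_num))
    exact ((h2.eventually (ge_mem_nhds hη0)).exists)
  obtain ⟨Q, hQ⟩ : ∃ Q : ℕ, Q = ∏ p ∈ T, p ^ R := ⟨_, rfl⟩
  have hTp : ∀ p ∈ T, p.Prime := fun p hp => by
    rw [hT, mem_filter] at hp
    exact hp.2.1
  have hQ0 : 0 < Q := by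
    rw [hQ]
    exact Finset.prod_pos fun p hp => pow_pos (hTp p hp).pos R
  have hQ0' : (0 : ℝ) < Q := by exact_mod_cast hQ0
  -- the product of `t` in terms of `s`
  have hts : ∀ n, cm t n = cm s n * cm (fun p => s p * t p) n := by
    intro n
    rw [← cm_mul_fun]
    congr 1
    funext p
    rcases hs p with h | h <;> rw [h] <;> ring
  -- the constants
  obtain ⟨κ, hκ⟩ : ∃ κ : ℕ → ℝ, κ = fun c => ∏ i, ((∏ p ∈ T, (-1 : ℤ) ^ (a i * c + b i).factorization p : ℤ) : ℝ) :=
    ⟨_, rfl⟩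
  have hκ1 : ∀ c, |κ c| = 1 := by
    intro c
    rw [hκ]
    simp only
    rw [Finset.abs_prod]
    refine Finset.prod_eq_one fun i _ => ?_
    push_cast
    exact sgn_abs T _
  obtain ⟨G, hG⟩ : ∃ G : ℕ → ℝ, G = fun n => ((∏ i, cm s (a i * n + b i) : ℤ) : ℝ) := ⟨_, rfl⟩
  have hG1 : ∀ n, |G n| = 1 := by
    intro n
    rw [hG]
    simp only
    push_cast
    rw [Finset.abs_prod]
    refine Finset.prod_eq_one fun i _ => ?_
    rw [← Int.cast_abs, cm_abs hs1, Int.cast_one]
  -- the bad points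
  obtain ⟨B1, hB1⟩ : ∃ B1 : ℕ → Finset ℕ, B1 = fun x => (Icc 1 x).filter
      (fun n => ∃ p ∈ (Icc 1 (A * x)).filter (fun p => (p.Prime ∧ s p ≠ t p) ∧ y < p), p ∣ NN a b n) :=
    ⟨_, rfl⟩
  obtain ⟨B2, hB2⟩ : ∃ B2 : ℕ → Finset ℕ, B2 = fun x => (Icc 1 x).filter
      (fun n => ∃ p ∈ T, ∃ i, p ^ R ∣ a i * n + b i) := ⟨_, rfl⟩
  have hgood : ∀ x n : ℕ, n ∈ Icc 1 x → n ∉ B1 x → n ∉ B2 x → ∀ c, 1 ≤ c → n ≡ c [MOD Q] →
      ((∏ i, cm t (a i * n + b i) : ℤ) : ℝ) = G n * κ c := by
    intro x n hn h1 h2 c hc hnc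
    rw [hB1] at h1
    rw [hB2] at h2
    simp only [mem_filter, not_and] at h1 h2
    have h1' := h1 hn
    have h2' := h2 hn
    push Not at h1' h2'
    rw [mem_Icc] at hn
    have h3 : ∀ i, cm t (a i * n + b i) = cm s (a i * n + b i) *
        ∏ p ∈ T, (-1 : ℤ) ^ (a i * c + b i).factorization p := by
      intro i
      rw [hts]
      congr 1
      have h4 : cm (fun p => s p * t p) (a i * n + b i) =
          cm (fun p => if p ∈ T then -1 else 1) (a i * n + b i) := by
        apply cm_congr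
        intro p hp hpn
        have h5 : s p * t p = if s p ≠ t p then -1 else 1 := by
          rcases hs p with h | h <;> rcases ht p with h' | h' <;> rw [h, h'] <;> norm_num
        rw [h5]
        by_cases h6 : s p ≠ t p
        · rw [if_pos h6]
          have h7 : p ∈ T := by
            by_contra h8
            rw [hT, mem_filter, mem_Icc] at h8
            have h9 : y < p := by
              by_contra h10
              exact h8 ⟨⟨hp.one_lt.le, not_lt.1 h10⟩, hp, h6⟩
            have h10 : p ≤ a i * n + b i :=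
              Nat.le_of_dvd (Nat.pos_of_ne_zero (L_ne ha hn.1 i)) hpn
            have h11 : a i * n + b i ≤ A * x := by
              have h12 : a i * n ≤ a i * x := Nat.mul_le_mul_left _ hn.2
              have h13 : b i ≤ b i * x := Nat.le_mul_of_pos_right _ (by omega)
              have h14 : (a i + b i) * x ≤ A * x := Nat.mul_le_mul_right _ (hA3 i)
              rw [add_mul] at h14
              omega
            refine h1' p ⟨?_, ⟨hp, h6⟩, h9⟩ ?_
            · rw [mem_Icc]
              exact ⟨hp.one_lt.le, by omega⟩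
            · exact hpn.trans (Finset.dvd_prod_of_mem _ (Finset.mem_univ i))
          rw [if_pos h7]
        · rw [if_neg h6, if_neg]
          rw [hT, mem_filter]
          exact fun h7 => h6 h7.2.2
      rw [h4, cm_flip]
      refine Finset.prod_congr rfl fun p hp => ?_
      congr 1
      apply fac_eq (R := R) (hTp p hp) (L_ne ha hn.1 i) (L_ne ha hc i) _ (h2' p hp i)
      have h5 : p ^ R ∣ Q := by
        rw [hQ]
        exact Finset.dvd_prod_of_mem (fun p => p ^ R) hp
      exact (((hnc.of_dvd h5).mul_left (a i)).add_right (b i))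
    rw [hG, hκ]
    simp only
    rw [Finset.prod_congr rfl fun i _ => h3 i, Finset.prod_mul_distrib]
    push_cast
    rfl
  -- counting the bad points
  have hc1 : ∀ x : ℕ, ((B1 x).card : ℝ) ≤ k * (η * x) +
      k * (((Icc 1 (A * x)).filter Nat.Prime).card : ℝ) := by
    intro x
    obtain ⟨P, hP⟩ : ∃ P, P = (Icc 1 (A * x)).filter (fun p => (p.Prime ∧ s p ≠ t p) ∧ y < p) := ⟨_, rfl⟩
    have h2 : B1 x ⊆ P.biUnion (fun p => (Icc 1 x).filter (fun n => p ∣ NN a b n)) := by
      intro n hn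
      rw [hB1] at hn
      simp only at hn
      rw [← hP, mem_filter] at hn
      obtain ⟨hn1, p, hp, hn2⟩ := hn
      rw [mem_biUnion]
      exact ⟨p, hp, by rw [mem_filter]; exact ⟨hn1, hn2⟩⟩
    have h3 := (Finset.card_le_card h2).trans Finset.card_biUnion_le
    have h4 : ((B1 x).card : ℝ) ≤ ∑ p ∈ P, (((Icc 1 x).filter (fun n => p ∣ NN a b n)).card : ℝ) := by
      exact_mod_cast h3
    have h5 : ∀ p ∈ P, (((Icc 1 x).filter (fun n => p ∣ NN a b n)).card : ℝ) ≤
        k * x * (if p.Prime ∧ s p ≠ t p then (1 : ℝ) / p else 0) + k := by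
      intro p hp
      rw [hP, mem_filter] at hp
      rw [if_pos hp.2.1]
      have h6 := cntN (b := b) ha x hp.2.1.1 (fun i => by
        have := (hA2 i i).1
        have := hp.2.2
        omega)
      refine h6.trans (le_of_eq ?_)
      ring
    refine h4.trans ((Finset.sum_le_sum h5).trans ?_)
    rw [Finset.sum_add_distrib, ← Finset.mul_sum, Finset.sum_const, nsmul_eq_mul]
    have h6 := hy₁ P (fun p hp => by
      rw [hP, mem_filter] at hp
      have := hp.2.2
      omega)
    have h7 : (P.card : ℝ) ≤ (((Icc 1 (A * x)).filter Nat.Prime).card : ℝ) := by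
      have h8 : P ⊆ (Icc 1 (A * x)).filter Nat.Prime := by
        intro p hp
        rw [hP, mem_filter] at hp
        rw [mem_filter]
        exact ⟨hp.1, hp.2.1.1⟩
      exact_mod_cast Finset.card_le_card h8
    have h8 : (k : ℝ) * x * ∑ p ∈ P, (if p.Prime ∧ s p ≠ t p then (1 : ℝ) / p else 0) ≤ k * x * η :=
      mul_le_mul_of_nonneg_left h6 (by positivity)
    have h9 := mul_le_mul_of_nonneg_left h7 (Nat.cast_nonneg (α := ℝ) k)
    linarith
  have hc2 : ∀ x : ℕ, ((B2 x).card : ℝ) ≤ η * x := by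
    intro x
    have h2 : B2 x ⊆ T.biUnion (fun p => (univ : Finset (Fin k)).biUnion
        (fun i => (Icc 1 x).filter (fun n => p ^ R ∣ a i * n + b i))) := by
      intro n hn
      rw [hB2] at hn
      simp only [mem_filter] at hn
      obtain ⟨hn1, p, hp, i, hn2⟩ := hn
      rw [mem_biUnion]
      refine ⟨p, hp, ?_⟩
      rw [mem_biUnion]
      exact ⟨i, mem_univ i, by rw [mem_filter]; exact ⟨hn1, hn2⟩⟩
    have h3 := (Finset.card_le_card h2).trans Finset.card_biUnion_le
    have h4 : ((B2 x).card : ℝ) ≤ ∑ p ∈ T, ((((univ : Finset (Fin k)).biUnion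
        (fun i => (Icc 1 x).filter (fun n => p ^ R ∣ a i * n + b i))).card : ℕ) : ℝ) := by
      exact_mod_cast h3
    have h5 : ∀ p ∈ T, ((((univ : Finset (Fin k)).biUnion
        (fun i => (Icc 1 x).filter (fun n => p ^ R ∣ a i * n + b i))).card : ℕ) : ℝ) ≤
        k * (A * x / 2 ^ R) := by
      intro p hp
      have h6 : ((((univ : Finset (Fin k)).biUnion
          (fun i => (Icc 1 x).filter (fun n => p ^ R ∣ a i * n + b i))).card : ℕ) : ℝ) ≤
          ∑ i, (((Icc 1 x).filter (fun n => p ^ R ∣ a i * n + b i)).card : ℝ) := by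
        exact_mod_cast Finset.card_biUnion_le
      refine h6.trans ?_
      have h7 : ∀ i ∈ (univ : Finset (Fin k)),
          (((Icc 1 x).filter (fun n => p ^ R ∣ a i * n + b i)).card : ℝ) ≤ A * x / 2 ^ R := by
        intro i _
        refine (cnt_pow (ha i) (hA3 i) (pow_pos (hTp p hp).pos R)).trans ?_
        apply div_le_div_of_nonneg_left (by positivity) (by positivity)
        push_cast
        exact pow_le_pow_left₀ (by norm_num) (by exact_mod_cast (hTp p hp).two_le) R
      refine (Finset.sum_le_sum h7).trans ?_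
      rw [Finset.sum_const, nsmul_eq_mul, Finset.card_univ, Fintype.card_fin]
    refine h4.trans ((Finset.sum_le_sum h5).trans ?_)
    rw [Finset.sum_const, nsmul_eq_mul]
    calc (T.card : ℝ) * (k * (A * x / 2 ^ R)) = (T.card : ℝ) * k * A / 2 ^ R * x := by ring
      _ ≤ η * x := mul_le_mul_of_nonneg_right hR (Nat.cast_nonneg x)
  -- the sums over the progressions
  have hprog : ∀ c ∈ Icc 1 Q, ∀ᶠ X : ℕ in atTop, |∑ m ∈ range X, G (Q * m + c)| ≤ η * X := by
    intro c hc
    rw [mem_Icc] at hc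
    have h2 : Adm (fun i => a i * Q) (fun i => a i * c + b i) := by
      refine ⟨fun i => Nat.mul_pos (ha i) hQ0, fun i j hij h => hab2 i j hij ?_⟩
      have h3 : Q * (a i * b j) = Q * (a j * b i) := by
        have h4 : a i * Q * (a j * c + b j) = a j * Q * (a i * c + b i) := h
        have h5 : a i * Q * (a j * c + b j) = Q * (a i * b j) + Q * (a i * a j * c) := by ring
        have h6 : a j * Q * (a i * c + b i) = Q * (a j * b i) + Q * (a i * a j * c) := by ring
        omega
      exact Nat.eq_of_mul_eq_mul_left hQ0 h3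
    have h3 := hC _ _ h2
    rw [Metric.tendsto_atTop] at h3
    obtain ⟨N, hN⟩ := h3 (η / 2) (by positivity)
    have e1 : ∀ᶠ X : ℕ in atTop, 2 / η ≤ (X : ℝ) := cast_tend.eventually_ge_atTop _
    filter_upwards [eventually_ge_atTop (N + 2), e1] with X hX hX2
    obtain ⟨X', rfl⟩ : ∃ X', X = X' + 1 := ⟨X - 1, by omega⟩
    have hX'0 : (0 : ℝ) < X' := by exact_mod_cast (by omega : 0 < X')
    have h4 := hN X' (by omega)
    rw [Real.dist_eq, sub_zero, abs_div, abs_of_pos hX'0, div_lt_iff₀ hX'0] at h4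
    rw [Finset.sum_range_succ']
    have h5 : ∑ m ∈ range X', G (Q * (m + 1) + c) =
        ((corr (cm s) (fun i => a i * Q) (fun i => a i * c + b i) X' : ℤ) : ℝ) := by
      rw [sum_shift (fun m => G (Q * m + c))]
      unfold corr
      push_cast
      refine Finset.sum_congr rfl fun m _ => ?_
      rw [hG]
      simp only
      push_cast
      refine Finset.prod_congr rfl fun i _ => ?_
      have e : a i * (Q * m + c) + b i = a i * Q * m + (a i * c + b i) := by ring
      rw [e]
    rw [h5]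
    have h6 := hG1 (Q * 0 + c)
    have h7 := abs_add_le ((corr (cm s) (fun i => a i * Q) (fun i => a i * c + b i) X' : ℤ) : ℝ)
      (G (Q * 0 + c))
    rw [h6] at h7
    refine h7.trans ?_
    rw [div_le_iff₀ hη0] at hX2
    push_cast at hX2 ⊢
    linarith
  -- the end of the proof
  have e1 := (eventually_all_finset (Icc 1 Q)).2 hprog
  have e2 := (Nat.tendsto_div_const_atTop hQ0.ne').eventually e1
  have e3 : ∀ᶠ n : ℕ in atTop, (((Icc 1 n).filter Nat.Prime).card : ℝ) ≤ η / A * n := by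
    have h2 := pi_small.eventually (ge_mem_nhds (show (0 : ℝ) < η / A by positivity))
    filter_upwards [h2, eventually_gt_atTop 0] with n hn hn0
    have hn0' : (0 : ℝ) < n := by exact_mod_cast hn0
    have hn' : (((Icc 1 n).filter Nat.Prime).card : ℝ) / n ≤ η / A := hn
    rwa [div_le_iff₀ hn0'] at hn'
  obtain ⟨N₃, hN₃⟩ := eventually_atTop.1 e3
  have e4 : ∀ᶠ x : ℕ in atTop, 2 * Q / ε ≤ (x : ℝ) := cast_tend.eventually_ge_atTop _
  filter_upwards [e2, e4, eventually_ge_atTop (N₃ + Q)] with x h2 h4 h5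
  obtain ⟨X, hX⟩ : ∃ X, X = x / Q := ⟨_, rfl⟩
  rw [← hX] at h2
  have hx1 : Q * X ≤ x := by rw [hX]; exact Nat.mul_div_le x Q
  have hx2 : x < Q * X + Q := by
    rw [hX]
    have := Nat.lt_mul_div_succ x hQ0
    rw [mul_add, mul_one] at this
    exact this
  have hx1' : (Q : ℝ) * X ≤ x := by exact_mod_cast hx1
  have hx2' : (x : ℝ) ≤ Q * X + Q := by exact_mod_cast hx2.le
  have hA4 : ∀ n : ℕ, |cm t n| ≤ 1 := fun n => (cm_abs ht1 n).le
  have h6 := corr_diff (cm t) hA4 a b (Q * X) x hx1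
  obtain ⟨V, hV⟩ : ∃ V : ℕ → ℝ, V = fun n => G n * κ ((n - 1) % Q + 1) := ⟨_, rfl⟩
  have h7 : |∑ n ∈ Icc 1 (Q * X), V n| ≤ η * x := by
    rw [sum_blocks V Q X]
    have h8 : ∀ c ∈ Icc 1 Q, |∑ m ∈ range X, V (Q * m + c)| ≤ η * X := by
      intro c hc
      have h9 := h2 c hc
      rw [mem_Icc] at hc
      have h10 : ∑ m ∈ range X, V (Q * m + c) = (∑ m ∈ range X, G (Q * m + c)) * κ c := by
        rw [Finset.sum_mul]
        refine Finset.sum_congr rfl fun m _ => ?_
        rw [hV]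
        simp only
        have h11 : (Q * m + c - 1) % Q + 1 = c := by
          have h12 : Q * m + c - 1 = (c - 1) + Q * m := by omega
          rw [h12, Nat.add_mul_mod_self_left, Nat.mod_eq_of_lt (by omega)]
          omega
        rw [h11]
      rw [h10, abs_mul, hκ1, mul_one]
      exact h9
    refine (Finset.abs_sum_le_sum_abs _ _).trans ((Finset.sum_le_sum h8).trans ?_)
    rw [Finset.sum_const, Nat.card_Icc, nsmul_eq_mul, Nat.add_sub_cancel]
    calc (Q : ℝ) * (η * X) = η * (Q * X) := by ring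
      _ ≤ η * x := mul_le_mul_of_nonneg_left hx1' hη0.le
  have h8 : |((corr (cm t) a b (Q * X) : ℤ) : ℝ) - ∑ n ∈ Icc 1 (Q * X), V n| ≤
      2 * ((B1 (Q * X)).card : ℝ) + 2 * ((B2 (Q * X)).card : ℝ) := by
    unfold corr
    rw [Int.cast_sum, ← Finset.sum_sub_distrib]
    have h9 : ∀ n ∈ Icc 1 (Q * X), |((∏ i, cm t (a i * n + b i) : ℤ) : ℝ) - V n| ≤
        2 * (if n ∈ B1 (Q * X) then 1 else 0) + 2 * (if n ∈ B2 (Q * X) then 1 else 0) := by
      intro n hn
      have hb : |((∏ i, cm t (a i * n + b i) : ℤ) : ℝ) - V n| ≤ 2 := by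
        have h10 : |((∏ i, cm t (a i * n + b i) : ℤ) : ℝ)| = 1 := by
          push_cast
          rw [Finset.abs_prod]
          refine Finset.prod_eq_one fun i _ => ?_
          rw [← Int.cast_abs, cm_abs ht1, Int.cast_one]
        have h11 : |V n| = 1 := by
          rw [hV]
          simp only
          rw [abs_mul, hG1, hκ1, one_mul]
        have h12 := abs_sub (((∏ i, cm t (a i * n + b i) : ℤ) : ℝ)) (V n)
        linarith
      by_cases h10 : n ∈ B1 (Q * X)
      · rw [if_pos h10]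
        have : (0 : ℝ) ≤ if n ∈ B2 (Q * X) then 1 else 0 := by split_ifs <;> norm_num
        linarith
      · by_cases h11 : n ∈ B2 (Q * X)
        · rw [if_neg h10, if_pos h11]
          linarith
        · rw [if_neg h10, if_neg h11]
          have h12 := hgood (Q * X) n hn h10 h11 ((n - 1) % Q + 1) (by omega) (by
            rw [mem_Icc] at hn
            have h13 : n = (n - 1) + 1 := by omega
            have h14 : (n - 1) + 1 ≡ (n - 1) % Q + 1 [MOD Q] :=
              ((Nat.mod_modEq (n - 1) Q).symm).add_right 1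
            rw [← h13] at h14
            exact h14)
          rw [h12, hV]
          simp
    refine (Finset.abs_sum_le_sum_abs _ _).trans ((Finset.sum_le_sum h9).trans ?_)
    rw [Finset.sum_add_distrib, ← Finset.mul_sum, ← Finset.mul_sum, Finset.sum_boole, Finset.sum_boole]
    have h10 : ((Icc 1 (Q * X)).filter (fun n => n ∈ B1 (Q * X))).card ≤ (B1 (Q * X)).card :=
      Finset.card_le_card fun n hn => (mem_filter.1 hn).2
    have h11 : ((Icc 1 (Q * X)).filter (fun n => n ∈ B2 (Q * X))).card ≤ (B2 (Q * X)).card :=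
      Finset.card_le_card fun n hn => (mem_filter.1 hn).2
    have h10' : (((Icc 1 (Q * X)).filter (fun n => n ∈ B1 (Q * X))).card : ℝ) ≤ (B1 (Q * X)).card := by
      exact_mod_cast h10
    have h11' : (((Icc 1 (Q * X)).filter (fun n => n ∈ B2 (Q * X))).card : ℝ) ≤ (B2 (Q * X)).card := by
      exact_mod_cast h11
    linarith
  have h9 := hc1 (Q * X)
  have h10 := hc2 (Q * X)
  have h11 : (((Icc 1 (A * (Q * X))).filter Nat.Prime).card : ℝ) ≤ η * x := by
    have h12 : Q * X ≤ A * (Q * X) := Nat.le_mul_of_pos_left _ hA1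
    refine (hN₃ (A * (Q * X)) (by omega)).trans ?_
    push_cast
    have h13 : η / A * (A * (Q * X)) = η * (Q * X) := by field_simp
    rw [h13]
    exact mul_le_mul_of_nonneg_left hx1' hη0.le
  have h12 : |((corr (cm t) a b x : ℤ) : ℝ)| ≤ |((corr (cm t) a b x : ℤ) : ℝ) -
      ((corr (cm t) a b (Q * X) : ℤ) : ℝ)| + |((corr (cm t) a b (Q * X) : ℤ) : ℝ) -
      ∑ n ∈ Icc 1 (Q * X), V n| + |∑ n ∈ Icc 1 (Q * X), V n| := by
    have h13 := abs_add_three (((corr (cm t) a b x : ℤ) : ℝ) - ((corr (cm t) a b (Q * X) : ℤ) : ℝ))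
      (((corr (cm t) a b (Q * X) : ℤ) : ℝ) - ∑ n ∈ Icc 1 (Q * X), V n) (∑ n ∈ Icc 1 (Q * X), V n)
    have h14 : (((corr (cm t) a b x : ℤ) : ℝ) - ((corr (cm t) a b (Q * X) : ℤ) : ℝ)) +
      (((corr (cm t) a b (Q * X) : ℤ) : ℝ) - ∑ n ∈ Icc 1 (Q * X), V n) +
      (∑ n ∈ Icc 1 (Q * X), V n) = ((corr (cm t) a b x : ℤ) : ℝ) := by ring
    rw [h14] at h13
    exact h13
  have hk0 : (0 : ℝ) ≤ k := Nat.cast_nonneg k
  have h13 : ((Q * X : ℕ) : ℝ) ≤ x := by exact_mod_cast hx1
  have h14 : (x : ℝ) - ((Q * X : ℕ) : ℝ) ≤ Q := by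
    push_cast
    linarith
  have h15 : η * ((Q * X : ℕ) : ℝ) ≤ η * x := mul_le_mul_of_nonneg_left h13 hη0.le
  have h16 : (k : ℝ) * (η * ((Q * X : ℕ) : ℝ)) ≤ k * (η * x) := mul_le_mul_of_nonneg_left h15 hk0
  have h17 : (k : ℝ) * (((Icc 1 (A * (Q * X))).filter Nat.Prime).card : ℝ) ≤ k * (η * x) :=
    mul_le_mul_of_nonneg_left h11 hk0
  have h18 : 2 * (Q : ℝ) ≤ ε * x := by
    rw [div_le_iff₀ hε0] at h4
    linarith
  have h19 : (8 * (k + 1)) * η = ε := by
    rw [hη]
    field_simp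
  have hx0 : (0 : ℝ) ≤ x := Nat.cast_nonneg x
  have h20 : 8 * (k * (η * x)) + 8 * (η * x) = ε * x := by
    rw [← h19]
    ring
  have h21 : 0 ≤ k * (η * x) := by positivity
  have h22 : 0 ≤ η * x := by positivity
  linarith

end Pool.Agent.U26Z.NL
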